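import Pool.Agent.N224.Ivy.Wedge

set_option autoImplicit false
set_option linter.unusedSectionVars false
set_option linter.style.haveILetI false

open Topology Set unitInterval

namespace Pool.Agent.N224.Ivy

variable {S : Type*} [TopologicalSpace S]

theorem numComponents_le_two {X U V : Set S} (hU : IsPreconnected U) (hV : IsPreconnected V)
    (h : U ∪ V = X) : numComponents X ≤ 2 := by
  classical
  subst h
  have hpre : ∀ W : Set S, IsPreconnected W → W ⊆ U ∪ V → ∀ x y : ↥(U ∪ V), (x : S) ∈ W →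
      (y : S) ∈ W → ConnectedComponents.mk x = ConnectedComponents.mk y := by
    intro W hW hWs x y hx hy
    rw [ConnectedComponents.coe_eq_coe']
    have h1 : IsPreconnected ((Subtype.val : ↥(U ∪ V) → S) ⁻¹' W) := by
      apply Topology.IsInducing.subtypeVal.isPreconnected_image.1
      rw [Subtype.image_preimage_coe, inter_eq_self_of_subset_right hWs]
      exact hW
    exact h1.subset_connectedComponent (x := y) hy hx
  have hinj : Function.Injective fun c : ConnectedComponents ↥(U ∪ V) =>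
      decide (∃ x : ↥(U ∪ V), (x : S) ∈ U ∧ ConnectedComponents.mk x = c) := by
    intro c c' he
    obtain ⟨x, rfl⟩ := ConnectedComponents.surjective_coe c
    obtain ⟨y, rfl⟩ := ConnectedComponents.surjective_coe c'
    simp only [decide_eq_decide] at he
    by_cases h1 : ∃ z : ↥(U ∪ V), (z : S) ∈ U ∧ ConnectedComponents.mk z = ConnectedComponents.mk x
    · obtain ⟨z', hz', e'⟩ := he.1 h1
      obtain ⟨z, hz, e⟩ := h1
      rw [← e, ← e']
      exact hpre U hU subset_union_left z z' hz hz'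
    · have h2 : (x : S) ∉ U := fun hx => h1 ⟨x, hx, rfl⟩
      have h3 : (y : S) ∉ U := fun hy => h1 (he.2 ⟨y, hy, rfl⟩)
      exact hpre V hV subset_union_right x y (x.2.resolve_left h2) (y.2.resolve_left h3)
  have h1 := ENat.card_le_card_of_injective hinj
  have h2 : ENat.card Bool = 2 := by simp
  rw [h2] at h1
  exact h1

theorem isPreconnected_of_numComponents_le_one {X : Set S} (h : numComponents X ≤ 1) :
    IsPreconnected X := by
  unfold numComponents at h
  rw [ENat.card_le_one_iff_subsingleton] at h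
  rw [isPreconnected_iff_preconnectedSpace, preconnectedSpace_iff_connectedComponent]
  intro x
  rw [eq_univ_iff_forall]
  intro y
  rw [← ConnectedComponents.coe_eq_coe']
  exact Subsingleton.elim _ _

theorem numComponents_image (h : S ≃ₜ S) (X : Set S) : numComponents (h '' X) = numComponents X := by
  unfold numComponents
  have e : ConnectedComponents X ≃ₜ ConnectedComponents (h '' X) :=
    (h.image X).isQuotientMap.isCoinducing.connectedComponentsHomeomorph (by
      intro y
      have : (h.image X) ⁻¹' {y} = {(h.image X).symm y} := by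
        ext z
        simp [Homeomorph.eq_symm_apply]
      rw [this]
      exact isConnected_singleton)
  exact (ENat.card_congr e.toEquiv).symm

namespace Wedge

variable {ι : Type} {γ : ι → I → S} {v : S}

theorem v_mem [Nonempty ι] (h : Wedge γ v) : v ∈ wed γ :=
  mem_wed.2 ⟨Classical.arbitrary ι, 0, h.zero _⟩

/-- the complement of the centre has one component for each arc -/
theorem numComponents_centre [T2Space S] [Finite ι] (h : Wedge γ v) :
    numComponents (wed γ \ {v}) = ENat.card ι := by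
  letI : TopologicalSpace ι := ⊥
  haveI : DiscreteTopology ι := ⟨rfl⟩
  set X : Set S := wed γ \ {v} with hX
  let U : ι → Set ↥X := fun r => {x | 0 < co γ r x}
  have hcont : ∀ r, Continuous fun x : ↥X => co γ r x := fun r =>
    continuousOn_iff_continuous_domRestrict.1 ((h.co_cont r).mono sdiff_subset)
  have hopen : ∀ r, IsOpen (U r) := fun r => isOpen_lt continuous_const (hcont r)
  have hcover : ∀ x : ↥X, ∃ r, x ∈ U r := by
    rintro ⟨x, hx, hxv⟩
    obtain ⟨r, t, rfl⟩ := mem_wed.1 hx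
    refine ⟨r, ?_⟩
    change 0 < co γ r (γ r t)
    rw [h.co_self]
    have h0 : t ≠ 0 := by
      rintro rfl
      exact hxv (h.zero r)
    exact_mod_cast (unitInterval.nonneg' (t := t)).lt_of_ne' h0
  have hdisj : Pairwise (Function.onFun Disjoint U) := by
    intro r r' hr
    rw [Function.onFun, Set.disjoint_left]
    rintro ⟨x, hx, hxv⟩ h1 h2
    have h1' : 0 < co γ r x := h1
    have h2' : 0 < co γ r' x := h2
    obtain ⟨t, rfl, ht⟩ := of_co_pos h1'
    rw [h.co_other hr.symm] at h2'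
    exact lt_irrefl _ h2'
  have hunion : ⋃ r, U r = univ := by
    rw [eq_univ_iff_forall]
    intro x
    obtain ⟨r, hr⟩ := hcover x
    exact mem_iUnion.2 ⟨r, hr⟩
  have hclopen : ∀ r, IsClopen (U r) := by
    intro r
    refine ⟨?_, hopen r⟩
    have e : (U r)ᶜ = ⋃ r' ∈ {r' | r' ≠ r}, U r' := by
      ext x
      simp only [mem_compl_iff, mem_iUnion, mem_ofPred_eq, exists_prop]
      constructor
      · intro hx
        obtain ⟨r', hr'⟩ := hcover x
        exact ⟨r', fun e => hx (e ▸ hr'), hr'⟩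
      · rintro ⟨r', hr', hx⟩ hx'
        exact Set.disjoint_left.1 (hdisj hr') hx hx'
    rw [← isOpen_compl_iff, e]
    exact isOpen_biUnion fun r' _ => hopen r'
  have hconn : ∀ r, IsConnected (U r) := by
    intro r
    have h1 : IsConnected (γ r '' Ioc 0 1) :=
      (isConnected_Ioc (by norm_num : (0 : I) < 1)).image _ (h.cont r).continuousOn
    have e : Subtype.val '' U r = γ r '' Ioc 0 1 := by
      ext x
      constructor
      · rintro ⟨⟨x, hx, hxv⟩, h1, rfl⟩
        have h1' : 0 < co γ r x := h1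
        obtain ⟨t, rfl, ht⟩ := of_co_pos h1'
        refine ⟨t, ⟨?_, unitInterval.le_one'⟩, rfl⟩
        have : (0 : ℝ) < t := by rw [ht]; exact h1'
        exact_mod_cast this
      · rintro ⟨t, ht, rfl⟩
        have hne : γ r t ≠ v := fun e => ht.1.ne' (h.eq_zero e)
        refine ⟨⟨γ r t, mem_wed.2 ⟨r, t, rfl⟩, hne⟩, ?_, rfl⟩
        change 0 < co γ r (γ r t)
        rw [h.co_self]
        exact_mod_cast ht.1
    constructor
    · obtain ⟨x, hx⟩ := h1.nonempty
      rw [← e] at hx
      obtain ⟨y, hy, -⟩ := hx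
      exact ⟨y, hy⟩
    · apply Topology.IsInducing.subtypeVal.isPreconnected_image.1
      rw [e]
      exact h1.isPreconnected
  exact ENat.card_congr
    (ConnectedComponents.equivOfIsClopenOfIsConnected hclopen hdisj hunion hconn)

theorem not_preconnected [T2Space S] [Finite ι] (h : Wedge γ v) {r : ι} {t : I} (h0 : t ≠ 0)
    (h1 : t ≠ 1) : ¬ IsPreconnected (wed γ \ {γ r t}) := by
  intro hc
  have h0' : (0 : ℝ) < t := by exact_mod_cast (unitInterval.nonneg' (t := t)).lt_of_ne' h0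
  have hm : γ r t ∈ wed γ \ {γ r t} := by
    refine h.seg (x := γ r 1) (y := γ r 0) hc sdiff_subset ?_ ?_ ?_ ?_
    · exact ⟨mem_wed.2 ⟨r, 1, rfl⟩, fun e => h1 (h.inj r e).symm⟩
    · exact ⟨mem_wed.2 ⟨r, 0, rfl⟩, fun e => h0 (h.inj r e).symm⟩
    · rw [h.co_self]; exact h0'
    · rw [h.co_self]; exact t.2.2
  exact hm.2 rfl

theorem numComponents_interior [T2Space S] [Finite ι] (h : Wedge γ v) {r : ι} {t : I}
    (h0 : t ≠ 0) : numComponents (wed γ \ {γ r t}) ≤ 2 := by
  have h0' : 0 < t := (unitInterval.nonneg' (t := t)).lt_of_ne' h0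
  have hU : IsPreconnected (wed γ \ (γ r '' Ici t)) := by
    refine isPreconnected_of_forall v ?_
    rintro y ⟨hy, hy'⟩
    obtain ⟨r', s, rfl⟩ := mem_wed.1 hy
    by_cases hr : r' = r
    · subst hr
      have hs : s < t := by
        by_contra hcon
        exact hy' ⟨s, not_lt.1 hcon, rfl⟩
      refine ⟨γ r' '' Iio t, ?_, ⟨0, h0', h.zero _⟩, ⟨s, hs, rfl⟩,
        isPreconnected_Iio.image _ (h.cont r').continuousOn⟩
      rintro _ ⟨u, hu, rfl⟩
      refine ⟨mem_wed.2 ⟨r', u, rfl⟩, ?_⟩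
      rintro ⟨w, hw, e⟩
      rw [h.inj r' e] at hw
      exact absurd (mem_Iio.1 hu) (not_lt.2 (mem_Ici.1 hw))
    · refine ⟨range (γ r'), ?_, ⟨0, h.zero _⟩, ⟨s, rfl⟩, isPreconnected_range (h.cont r')⟩
      rintro _ ⟨u, rfl⟩
      refine ⟨mem_wed.2 ⟨r', u, rfl⟩, ?_⟩
      rintro ⟨w, hw, e⟩
      have := (h.disj' hr e.symm).2
      rw [this] at hw
      exact absurd (lt_of_lt_of_le h0' hw) (lt_irrefl _)
  have hV : IsPreconnected (γ r '' Ioi t) := isPreconnected_Ioi.image _ (h.cont r).continuousOn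
  refine numComponents_le_two hU hV ?_
  ext x
  constructor
  · rintro (⟨h1, h2⟩ | ⟨s, hs, rfl⟩)
    · exact ⟨h1, fun e => h2 ⟨t, self_mem_Ici, (mem_singleton_iff.1 e).symm⟩⟩
    · exact ⟨mem_wed.2 ⟨r, s, rfl⟩, fun e => (ne_of_gt (mem_Ioi.1 hs)) (h.inj r e)⟩
  · rintro ⟨h1, h2⟩
    by_cases hx : x ∈ γ r '' Ici t
    · obtain ⟨s, hs, rfl⟩ := hx
      refine Or.inr ⟨s, lt_of_le_of_ne (mem_Ici.1 hs) fun e => h2 (by rw [e]; rfl), rfl⟩
    · exact Or.inl ⟨h1, hx⟩

/-- a wedge is a spanning tree for `P` without further vertices if `P` contains the ends of the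
arcs -/
theorem spanning [T2Space S] [Finite ι] (h : Wedge γ v) {P : Set S} (hP : P ⊆ wed γ) (hv : v ∈ P)
    (h1 : ∀ r, γ r 1 ∈ P) : IsSpanningTree P (wed γ) ∧ vertexSet P (wed γ) = P := by
  have key : ∀ x ∈ wed γ, x ∉ P → ∃ r t, t ≠ 0 ∧ t ≠ 1 ∧ γ r t = x := by
    intro x hx hxP
    obtain ⟨r, t, rfl⟩ := mem_wed.1 hx
    refine ⟨r, t, ?_, ?_, rfl⟩
    · rintro rfl
      exact hxP (by rw [h.zero]; exact hv)
    · rintro rfl
      exact hxP (h1 r)
  refine ⟨⟨h.isFiniteTree, hP, ?_⟩, ?_⟩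
  · rintro x ⟨hx, hx1⟩
    by_contra hxP
    obtain ⟨r, t, ht0, ht1, rfl⟩ := key x hx hxP
    exact h.not_preconnected ht0 ht1 (isPreconnected_of_numComponents_le_one hx1)
  · apply subset_antisymm _ subset_union_left
    rintro x (hx | ⟨hx, hx2⟩)
    · exact hx
    · by_contra hxP
      obtain ⟨r, t, ht0, ht1, rfl⟩ := key x hx hxP
      exact absurd hx2 (not_lt.2 (h.numComponents_interior ht0))

end Wedge

/-! ### images under homeomorphisms -/

theorem IsArc.image {A : Set S} {x y : S} (hA : IsArc A x y) (h : S ≃ₜ S) :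
    IsArc (h '' A) (h x) (h y) := by
  obtain ⟨γ, h1, h2, rfl, rfl, rfl⟩ := hA
  exact ⟨h ∘ γ, h.continuous.comp h1, h.injective.comp h2, rfl, rfl, range_comp _ _⟩

theorem image_diff_singleton (h : S ≃ₜ S) (T : Set S) (x : S) :
    h '' T \ {h x} = h '' (T \ {x}) := by
  rw [image_sdiff h.injective, image_singleton]

theorem isEndpoint_image (h : S ≃ₜ S) {T : Set S} {x : S} (hx : IsEndpoint (h '' T) (h x)) :
    IsEndpoint T x := by
  obtain ⟨h1, h2⟩ := hx
  rw [image_diff_singleton, numComponents_image] at h2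
  exact ⟨(h.injective.mem_set_image).1 h1, h2⟩

theorem isBranchPoint_image (h : S ≃ₜ S) {T : Set S} {x : S} (hx : IsBranchPoint (h '' T) (h x)) :
    IsBranchPoint T x := by
  obtain ⟨h1, h2⟩ := hx
  rw [image_diff_singleton, numComponents_image] at h2
  exact ⟨(h.injective.mem_set_image).1 h1, h2⟩

theorem IsFiniteTree.image {T : Set S} (hT : IsFiniteTree T) (h : S ≃ₜ S) :
    IsFiniteTree (h '' T) := by
  obtain ⟨⟨𝒜, h1, h2, rfl⟩, h3⟩ := hT
  refine ⟨⟨(fun A => h '' A) '' 𝒜, h1.image _, ?_, ?_⟩, ?_⟩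
  · rintro _ ⟨A, hA, rfl⟩
    obtain ⟨x, y, hxy⟩ := h2 A hA
    exact ⟨_, _, hxy.image h⟩
  · rw [sUnion_image, sUnion_eq_biUnion, image_iUnion₂]
  · rintro _ ⟨x, hx, rfl⟩ _ ⟨y, hy, rfl⟩ hxy
    obtain ⟨A, ⟨hA1, hA2⟩, hA3⟩ := h3 x hx y hy fun e => hxy (by rw [e])
    refine ⟨h '' A, ⟨image_mono hA1, hA2.image h⟩, ?_⟩
    rintro B ⟨hB1, hB2⟩
    have h4 := hA3 (h.symm '' B) ⟨?_, ?_⟩
    · rw [← h4, ← image_comp]
      simp
    · rintro _ ⟨b, hb, rfl⟩
      obtain ⟨a, ha, e⟩ := hB1 hb
      rw [← e]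
      simpa using ha
    · have := hB2.image h.symm
      simpa using this

theorem IsSpanningTree.image {P T : Set S} (hT : IsSpanningTree P T) (h : S ≃ₜ S)
    (hP : ∀ x ∈ P, h x = x) :
    IsSpanningTree P (h '' T) ∧ vertexSet P (h '' T) = h '' vertexSet P T := by
  have hPi : h '' P = P := by
    ext x
    constructor
    · rintro ⟨y, hy, rfl⟩
      rw [hP y hy]; exact hy
    · intro hx
      exact ⟨x, hx, hP x hx⟩
  refine ⟨⟨hT.tree.image h, ?_, ?_⟩, ?_⟩
  · rw [← hPi]
    exact image_mono hT.sub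
  · intro x hx
    obtain ⟨y, rfl⟩ := h.surjective x
    have h1 := hT.ends y (isEndpoint_image h hx)
    rw [hP y h1]; exact h1
  · unfold vertexSet
    rw [image_union, hPi]
    congr 1
    ext x
    constructor
    · intro hx
      obtain ⟨y, rfl⟩ := h.surjective x
      exact ⟨y, isBranchPoint_image h hx, rfl⟩
    · rintro ⟨y, ⟨hy1, hy2⟩, rfl⟩
      refine ⟨⟨y, hy1, rfl⟩, ?_⟩
      rw [image_diff_singleton, numComponents_image]
      exact hy2

end Pool.Agent.N224.Ivy
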