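import Pool.Agent.N224.Ivy.Iso

set_option autoImplicit false

open Topology Set unitInterval Filter

namespace Pool.Agent.N224.Ivy

/-! ### legs -/

/-- finite points of the leg -/
noncomputable def legz (ξ m δ : ℝ) (t : ℝ) : ℂ :=
  ⟨ξ + (m - ξ) * max 0 (2 * t - 1), δ * max 0 (t⁻¹ - 2)⟩

open Classical in
/-- the arc which comes vertically from `∞` to the real point `ξ` and goes on to `m` -/
noncomputable def leg (ξ m δ : ℝ) (t : I) : OnePoint ℂ :=
  if (t : ℝ) = 0 then OnePoint.infty else (legz ξ m δ t : OnePoint ℂ)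

theorem leg_zero (ξ m δ : ℝ) : leg ξ m δ 0 = OnePoint.infty := by simp [leg]

theorem leg_of_ne {ξ m δ : ℝ} {t : I} (h : t ≠ 0) : leg ξ m δ t = (legz ξ m δ t : OnePoint ℂ) := by
  unfold leg
  rw [if_neg]
  intro h'
  exact h (Subtype.ext h')

theorem leg_one (ξ m δ : ℝ) : leg ξ m δ 1 = ((m : ℂ) : OnePoint ℂ) := by
  rw [leg_of_ne one_ne_zero]
  congr 1
  apply Complex.ext
  · simp only [legz, Set.Icc.coe_one, Complex.ofReal_re]
    norm_num
  · simp only [legz, Set.Icc.coe_one, Complex.ofReal_im]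
    norm_num

theorem leg_continuous (ξ m : ℝ) {δ : ℝ} (hδ : |δ| = 1) : Continuous (leg ξ m δ) := by
  rw [continuous_iff_continuousAt]
  intro t
  by_cases ht : (t : ℝ) = 0
  · have ht0 : t = 0 := Subtype.ext ht
    subst ht0
    change Tendsto _ _ _
    rw [leg_zero]
    intro s hs
    obtain ⟨h1, R, h2⟩ := mem_nhds_infty.1 hs
    rw [mem_map]
    have hpos : 0 < (|R| + 3)⁻¹ := by positivity
    have h3 : {u : I | (u : ℝ) < (|R| + 3)⁻¹} ∈ 𝓝 (0 : I) := by
      apply (isOpen_lt continuous_subtype_val continuous_const).mem_nhds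
      simpa using hpos
    refine mem_of_superset h3 ?_
    intro u hu
    have hu' : (u : ℝ) < (|R| + 3)⁻¹ := hu
    rw [mem_preimage]
    by_cases hu0 : u = 0
    · rw [hu0, leg_zero]; exact h1
    · rw [leg_of_ne hu0]
      apply h2
      have hu1 : 0 < (u : ℝ) := by
        have := (unitInterval.nonneg' (t := u)).lt_of_ne' hu0
        exact_mod_cast this
      have h4 : |R| + 3 < (u : ℝ)⁻¹ := by
        rw [lt_inv_comm₀ (by positivity) hu1]
        exact hu'
      have h5 := Complex.abs_im_le_norm (legz ξ m δ u)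
      have h6 : (legz ξ m δ u).im = δ * max 0 ((u : ℝ)⁻¹ - 2) := rfl
      rw [h6, abs_mul, hδ, one_mul, abs_of_nonneg (le_max_left _ _)] at h5
      have h7 := le_max_right (0 : ℝ) ((u : ℝ)⁻¹ - 2)
      have h8 := le_abs_self R
      linarith
  · have hc : ContinuousAt (fun u : I => (legz ξ m δ u : OnePoint ℂ)) t := by
      apply OnePoint.continuous_coe.continuousAt.comp
      have e : (fun u : I => legz ξ m δ u) = fun u : I =>
          ((ξ + (m - ξ) * max 0 (2 * (u : ℝ) - 1) : ℝ) : ℂ) +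
            ((δ * max 0 ((u : ℝ)⁻¹ - 2) : ℝ) : ℂ) * Complex.I := by
        funext u
        apply Complex.ext <;> simp [legz]
      rw [e]
      have hinv : ContinuousAt (fun u : I => (u : ℝ)⁻¹) t :=
        continuous_subtype_val.continuousAt.inv₀ ht
      refine ContinuousAt.add ?_ ?_
      · apply Continuous.continuousAt
        fun_prop
      · refine ContinuousAt.mul ?_ continuousAt_const
        apply Complex.continuous_ofReal.continuousAt.comp
        exact continuousAt_const.mul (continuousAt_const.max (hinv.sub continuousAt_const))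
    refine hc.congr ?_
    have : {u : I | (u : ℝ) ≠ 0} ∈ 𝓝 t :=
      (isOpen_ne_fun continuous_subtype_val continuous_const).mem_nhds ht
    filter_upwards [this] with u hu
    rw [leg_of_ne]
    rintro rfl
    exact hu rfl

theorem legz_re_mem {ξ m δ : ℝ} (t : I) : (legz ξ m δ t).re ∈ uIcc ξ m := by
  have h0 : 0 ≤ max 0 (2 * (t : ℝ) - 1) := le_max_left _ _
  have h1 : max 0 (2 * (t : ℝ) - 1) ≤ 1 := max_le zero_le_one (by linarith [t.2.2])
  have e : (legz ξ m δ t).re = ξ + (m - ξ) * max 0 (2 * (t : ℝ) - 1) := rfl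
  rw [e]
  generalize max 0 (2 * (t : ℝ) - 1) = s at h0 h1
  rcases le_total ξ m with h | h
  · rw [uIcc_of_le h]
    constructor <;> nlinarith
  · rw [uIcc_of_ge h]
    constructor <;> nlinarith

theorem leg_injective {ξ m δ : ℝ} (hδ : |δ| = 1) (hm : ξ ≠ m) :
    Function.Injective (leg ξ m δ) := by
  intro t t' h
  by_cases h0 : t = 0
  · by_cases h0' : t' = 0
    · rw [h0, h0']
    · rw [h0, leg_zero, leg_of_ne h0'] at h
      exact absurd h.symm (OnePoint.coe_ne_infty _)
  · by_cases h0' : t' = 0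
    · rw [h0', leg_zero, leg_of_ne h0] at h
      exact absurd h (OnePoint.coe_ne_infty _)
    · rw [leg_of_ne h0, leg_of_ne h0'] at h
      have hz : legz ξ m δ t = legz ξ m δ t' := OnePoint.coe_injective h
      have h1 : (legz ξ m δ t).re = (legz ξ m δ t').re := by rw [hz]
      have h2 : (legz ξ m δ t).im = (legz ξ m δ t').im := by rw [hz]
      simp only [legz] at h1 h2
      have hδ0 : δ ≠ 0 := by
        rintro rfl
        simp at hδ
      have h3 := mul_left_cancel₀ hδ0 h2
      have hm0 : m - ξ ≠ 0 := sub_ne_zero.2 hm.symm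
      have h4 : max 0 (2 * (t : ℝ) - 1) = max 0 (2 * (t' : ℝ) - 1) :=
        mul_left_cancel₀ hm0 (by linarith)
      have ht : 0 < (t : ℝ) := by
        exact_mod_cast (unitInterval.nonneg' (t := t)).lt_of_ne' h0
      have ht' : 0 < (t' : ℝ) := by
        exact_mod_cast (unitInterval.nonneg' (t := t')).lt_of_ne' h0'
      have key : ∀ u : ℝ, 0 < u → (u ≤ 1 / 2 ∧ max 0 (2 * u - 1) = 0 ∧ max 0 (u⁻¹ - 2) = u⁻¹ - 2) ∨
          (1 / 2 < u ∧ max 0 (2 * u - 1) = 2 * u - 1) := by
        intro u hu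
        rcases le_or_gt u (1 / 2) with h5 | h5
        · refine Or.inl ⟨h5, max_eq_left (by linarith), max_eq_right ?_⟩
          have : (2 : ℝ) ≤ u⁻¹ := by
            rw [le_inv_comm₀ (by norm_num) hu]
            linarith
          linarith
        · exact Or.inr ⟨h5, max_eq_right (by linarith)⟩
      apply Subtype.ext
      rcases key t ht with ⟨a1, a2, a3⟩ | ⟨a1, a2⟩ <;> rcases key t' ht' with ⟨b1, b2, b3⟩ | ⟨b1, b2⟩
      · rw [a3, b3] at h3
        have : (t : ℝ)⁻¹ = (t' : ℝ)⁻¹ := by linarith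
        exact inv_injective this
      · rw [a2, b2] at h4
        linarith
      · rw [a2, b2] at h4
        linarith
      · rw [a2, b2] at h4
        linarith

/-- the points of the leg -/
theorem mem_range_leg {ξ m δ : ℝ} {x : OnePoint ℂ} :
    x ∈ range (leg ξ m δ) ↔ x = OnePoint.infty ∨
      (∃ s : ℝ, 0 ≤ s ∧ x = ((⟨ξ, δ * s⟩ : ℂ) : OnePoint ℂ)) ∨
        ∃ u ∈ uIcc ξ m, x = ((u : ℂ) : OnePoint ℂ) := by
  constructor
  · rintro ⟨t, rfl⟩
    by_cases h0 : t = 0
    · exact Or.inl (by rw [h0, leg_zero])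
    · right
      rw [leg_of_ne h0]
      have ht : 0 < (t : ℝ) := by
        exact_mod_cast (unitInterval.nonneg' (t := t)).lt_of_ne' h0
      rcases le_or_gt (t : ℝ) (1 / 2) with h5 | h5
      · refine Or.inl ⟨max 0 ((t : ℝ)⁻¹ - 2), le_max_left _ _, ?_⟩
        congr 1
        apply Complex.ext
        · simp only [legz]
          rw [max_eq_left (by linarith : 2 * (t : ℝ) - 1 ≤ 0)]
          ring
        · rfl
      · refine Or.inr ⟨(legz ξ m δ t).re, legz_re_mem t, ?_⟩
        congr 1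
        apply Complex.ext
        · simp
        · simp only [legz, Complex.ofReal_im]
          have : (t : ℝ)⁻¹ ≤ 2 := by
            rw [inv_le_comm₀ ht (by norm_num)]
            linarith
          rw [max_eq_left (by linarith), mul_zero]
  · rintro (rfl | ⟨s, hs, rfl⟩ | ⟨u, hu, rfl⟩)
    · exact ⟨0, leg_zero _ _ _⟩
    · have h1 : 0 < (s + 2)⁻¹ := by positivity
      have h2 : (s + 2)⁻¹ ≤ 1 / 2 := by
        rw [inv_le_comm₀ (by linarith) (by norm_num)]
        linarith
      refine ⟨⟨(s + 2)⁻¹, h1.le, by linarith⟩, ?_⟩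
      rw [leg_of_ne]
      · congr 1
        apply Complex.ext
        · simp only [legz]
          rw [max_eq_left (by linarith : 2 * (s + 2)⁻¹ - 1 ≤ 0)]
          ring
        · simp only [legz, inv_inv]
          rw [max_eq_right (by linarith)]
          ring
      · intro h
        have := congrArg Subtype.val h
        simp only [Icc.coe_zero] at this
        linarith
    · by_cases hm : m = ξ
      · rw [hm, uIcc_self, mem_singleton_iff] at hu
        refine ⟨1, ?_⟩
        rw [leg_one, hm, hu]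
      · have hm0 : m - ξ ≠ 0 := sub_ne_zero.2 hm
        have h3 : 0 ≤ (u - ξ) / (m - ξ) ∧ (u - ξ) / (m - ξ) ≤ 1 := by
          rcases lt_or_gt_of_ne hm with h | h
          · rw [uIcc_of_ge h.le] at hu
            have hneg : m - ξ < 0 := by linarith
            constructor
            · exact div_nonneg_of_nonpos (by linarith [hu.2]) hneg.le
            · rw [div_le_one_of_neg hneg]
              linarith [hu.1]
          · rw [uIcc_of_le h.le] at hu
            have hpos : 0 < m - ξ := by linarith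
            constructor
            · exact div_nonneg (by linarith [hu.1]) hpos.le
            · rw [div_le_one hpos]
              linarith [hu.2]
        set w := (u - ξ) / (m - ξ) with hw
        refine ⟨⟨(w + 1) / 2, by linarith [h3.1], by linarith [h3.2]⟩, ?_⟩
        have hpos : 0 < (w + 1) / 2 := by linarith [h3.1]
        rw [leg_of_ne]
        · congr 1
          apply Complex.ext
          · simp only [legz, Complex.ofReal_re]
            rw [max_eq_right (by linarith [h3.1] : (0 : ℝ) ≤ 2 * ((w + 1) / 2) - 1)]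
            have : (m - ξ) * w = u - ξ := by
              rw [hw]; field_simp
            linarith
          · simp only [legz, Complex.ofReal_im]
            have : ((w + 1) / 2)⁻¹ ≤ 2 := by
              rw [inv_le_comm₀ hpos (by norm_num)]
              linarith [h3.1]
            rw [max_eq_left (by linarith), mul_zero]
        · intro h
          have := congrArg Subtype.val h
          simp only [Icc.coe_zero] at this
          linarith

/-! ### the real dynamics -/

/-- the real quadratic map -/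
def pr (c x : ℝ) : ℝ := x ^ 2 + c

theorem quad_real (c x : ℝ) :
    quad (c : ℂ) ((x : ℂ) : OnePoint ℂ) = ((pr c x : ℝ) : ℂ) := by
  unfold quad pr
  rw [OnePoint.map_some]
  push_cast
  rfl

theorem quad_iter_real (c : ℝ) (n : ℕ) (x : ℝ) :
    (quad (c : ℂ))^[n] ((x : ℂ) : OnePoint ℂ) = (((pr c)^[n] x : ℝ) : ℂ) := by
  induction n generalizing x with
  | zero => rfl
  | succ n ih => rw [Function.iterate_succ_apply, quad_real, ih, Function.iterate_succ_apply]

theorem pr_zero (c : ℝ) : pr c 0 = c := by simp [pr]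

theorem mem_postSet {c : ℝ} {x : OnePoint ℂ} : x ∈ postSet (c : ℂ) ↔
    x = OnePoint.infty ∨ ∃ n : ℕ, x = ((((pr c)^[n + 1] 0 : ℝ) : ℂ) : OnePoint ℂ) := by
  unfold postSet
  rw [mem_insert_iff]
  have : ∀ n : ℕ, (quad (c : ℂ))^[n] ((c : ℂ) : OnePoint ℂ) =
      ((((pr c)^[n + 1] 0 : ℝ) : ℂ) : OnePoint ℂ) := by
    intro n
    rw [quad_iter_real, Function.iterate_succ_apply, pr_zero]
  constructor
  · rintro (h | ⟨n, rfl⟩)
    · exact Or.inl h
    · exact Or.inr ⟨n, this n⟩
  · rintro (h | ⟨n, rfl⟩)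
    · exact Or.inl h
    · exact Or.inr ⟨n, this n⟩

theorem quad_mem_postSet {c : ℝ} {x : OnePoint ℂ} (hx : x ∈ postSet (c : ℂ)) :
    quad (c : ℂ) x ∈ postSet (c : ℂ) := by
  rw [mem_postSet] at hx ⊢
  rcases hx with rfl | ⟨n, rfl⟩
  · exact Or.inl rfl
  · refine Or.inr ⟨n + 1, ?_⟩
    rw [quad_real, ← Function.iterate_succ_apply' (pr c)]

/-- what the legs have to satisfy -/
structure Datum (c : ℝ) {ι : Type} (nx : ι → ι) (ξ m δ : ι → ℝ) (g : ℝ → ℝ) : Prop where
  ne : ∀ r, ξ r ≠ m r
  disj : ∀ r r', r ≠ r' → Disjoint (uIcc (ξ r) (m r)) (uIcc (ξ r') (m r'))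
  dir : ∀ r, |δ r| = 1
  gne : ∀ r, g (ξ r) ≠ 0
  dirnx : ∀ r, δ (nx r) = SignType.sign (g (ξ r)) * δ r
  base : ∀ r, g (ξ r) ^ 2 + c = ξ (nx r)
  segm : ∀ r, ∀ u ∈ uIcc (ξ r) (m r), g u ^ 2 + c ∈ uIcc (ξ (nx r)) (m (nx r))
  post : ∀ n : ℕ, ∃ r, (pr c)^[n + 1] 0 ∈ uIcc (ξ r) (m r)
  tip : ∀ r, ∃ n : ℕ, m r = (pr c)^[n + 1] 0
  gfix : ∀ n : ℕ, g ((pr c)^[n + 1] 0) = (pr c)^[n + 1] 0
  gcont : Continuous g
  gmono : StrictMono g
  gbd : ∃ B, ∀ u, |g u - u| ≤ B

namespace Datum

variable {c : ℝ} {ι : Type} {nx : ι → ι} {ξ m δ : ι → ℝ} {g : ℝ → ℝ}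

theorem wedge (D : Datum c nx ξ m δ g) : Wedge (fun r => leg (ξ r) (m r) (δ r)) OnePoint.infty where
  cont r := leg_continuous _ _ (D.dir r)
  inj r := leg_injective (D.dir r) (D.ne r)
  zero r := leg_zero _ _ _
  disj := by
    intro r r' s t hr h
    by_contra hs
    by_cases ht : t = 0
    · subst ht
      rw [leg_zero, leg_of_ne hs] at h
      exact OnePoint.coe_ne_infty _ h
    · rw [leg_of_ne hs, leg_of_ne ht] at h
      have hz := OnePoint.coe_injective h
      have h1 := legz_re_mem (ξ := ξ r) (m := m r) (δ := δ r) s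
      have h2 := legz_re_mem (ξ := ξ r') (m := m r') (δ := δ r') t
      rw [hz] at h1
      exact Set.disjoint_left.1 (D.disj r r' hr) h1 h2

theorem tree [Finite ι] [Nonempty ι] (D : Datum c nx ξ m δ g) :
    ∃ (T : Set (OnePoint ℂ)) (H : I → OnePoint ℂ → OnePoint ℂ),
      IsSpanningTree (postSet (c : ℂ)) T ∧ vertexSet (postSet (c : ℂ)) T = postSet (c : ℂ) ∧
      numComponents (T \ {OnePoint.infty}) = ENat.card ι ∧
      IsIsotopy (postSet (c : ℂ)) H ∧ quad (c : ℂ) '' (H 1 '' T) ⊆ T := by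
  obtain ⟨B, hB⟩ := D.gbd
  -- a lower bound for the moved base points
  obtain ⟨d, hd, hd'⟩ : ∃ d : ℝ, 0 < d ∧ ∀ r, d ≤ |g (ξ r)| := by
    obtain ⟨r0, h0⟩ := Finite.exists_min fun r => |g (ξ r)|
    exact ⟨|g (ξ r0)|, abs_pos.2 (D.gne r0), h0⟩
  have hiso : IsIsotopy (postSet (c : ℂ)) fun t => OnePoint.map (shear d g t) := by
    refine shear_isotopy hd D.gcont D.gmono hB ?_
    intro z hz
    rw [mem_postSet] at hz
    rcases hz with hz | ⟨n, hz⟩
    · exact absurd hz (OnePoint.coe_ne_infty _)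
    · have := OnePoint.coe_injective hz
      rw [this]
      exact ⟨Complex.ofReal_im _, by rw [Complex.ofReal_re]; exact D.gfix n⟩
  have hsp : IsSpanningTree (postSet (c : ℂ)) (wed fun r => leg (ξ r) (m r) (δ r)) ∧
      vertexSet (postSet (c : ℂ)) (wed fun r => leg (ξ r) (m r) (δ r)) = postSet (c : ℂ) := by
    refine D.wedge.spanning ?_ ?_ ?_
    · intro x hx
      rw [mem_postSet] at hx
      rcases hx with rfl | ⟨n, rfl⟩
      · exact D.wedge.v_mem
      · obtain ⟨r, hr⟩ := D.post n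
        refine mem_iUnion.2 ⟨r, ?_⟩
        exact mem_range_leg.2 (Or.inr (Or.inr ⟨_, hr, rfl⟩))
    · exact mem_postSet.2 (Or.inl rfl)
    · intro r
      obtain ⟨n, hn⟩ := D.tip r
      refine mem_postSet.2 (Or.inr ⟨n, ?_⟩)
      rw [leg_one, hn]
  refine ⟨wed fun r => leg (ξ r) (m r) (δ r), fun t => OnePoint.map (shear d g t), hsp.1, hsp.2,
    D.wedge.numComponents_centre, hiso, ?_⟩
  rintro _ ⟨_, ⟨x, hx, rfl⟩, rfl⟩
  obtain ⟨r, hr⟩ := mem_iUnion.1 hx
  rw [mem_range_leg] at hr
  refine mem_iUnion.2 ⟨nx r, mem_range_leg.2 ?_⟩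
  rcases hr with rfl | ⟨s, hs, rfl⟩ | ⟨u, hu, rfl⟩
  · exact Or.inl rfl
  · right; left
    refine ⟨2 * Real.sqrt (g (ξ r) ^ 2 + (δ r * s) ^ 2) * s, by positivity, ?_⟩
    beta_reduce
    rw [OnePoint.map_some, shear_one hd g (ξ r) (δ r * s) (hd' r)]
    unfold quad
    rw [OnePoint.map_some]
    congr 1
    have hsq : Real.sqrt (g (ξ r) ^ 2 + (δ r * s) ^ 2) ^ 2 = g (ξ r) ^ 2 + (δ r * s) ^ 2 :=
      Real.sq_sqrt (by positivity)
    have hsg : ((SignType.sign (g (ξ r)) : ℝ)) ^ 2 = 1 := by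
      rcases lt_or_gt_of_ne (D.gne r) with h | h
      · rw [sign_neg h]; norm_num
      · rw [sign_pos h]; norm_num
    set w := Real.sqrt (g (ξ r) ^ 2 + (δ r * s) ^ 2) with hw
    apply Complex.ext
    · simp only [pow_two, Complex.add_re, Complex.mul_re, Complex.ofReal_re]
      have hb := D.base r
      have : (SignType.sign (g (ξ r)) : ℝ) * w * ((SignType.sign (g (ξ r)) : ℝ) * w) -
          δ r * s * (δ r * s) + c = ξ (nx r) := by
        have e : (SignType.sign (g (ξ r)) : ℝ) * w * ((SignType.sign (g (ξ r)) : ℝ) * w) =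
            (SignType.sign (g (ξ r)) : ℝ) ^ 2 * w ^ 2 := by ring
        rw [e, hsg, hsq]
        linarith
      exact this
    · simp only [pow_two, Complex.add_im, Complex.mul_im, Complex.ofReal_im]
      rw [D.dirnx r]
      ring
  · right; right
    refine ⟨g u ^ 2 + c, D.segm r u hu, ?_⟩
    beta_reduce
    rw [OnePoint.map_some, shear_real]
    have e : (1 - ((1 : I) : ℝ)) * u + ((1 : I) : ℝ) * g u = g u := by simp
    rw [e, quad_real]
    rfl

end Datum

end Pool.Agent.N224.Ivy
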