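import Mathlib

/-!
# Spanning trees in the sphere, their isotopy classes, and quadratic polynomials
-/

set_option autoImplicit false

open Topology Set

namespace Pool.Agent.N224.Ivy

variable {S : Type*} [TopologicalSpace S]

/-- `A` is an arc with the endpoints `x` and `y`. -/
def IsArc (A : Set S) (x y : S) : Prop :=
  ∃ γ : unitInterval → S, Continuous γ ∧ Function.Injective γ ∧ γ 0 = x ∧ γ 1 = y ∧ range γ = A

/-- `T` is a finite topological tree: a finite union of arcs, in which any two different points are
the endpoints of exactly one arc. -/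
def IsFiniteTree (T : Set S) : Prop :=
  (∃ 𝒜 : Set (Set S), 𝒜.Finite ∧ (∀ A ∈ 𝒜, ∃ x y, IsArc A x y) ∧ ⋃₀ 𝒜 = T) ∧
    ∀ x ∈ T, ∀ y ∈ T, x ≠ y → ∃! A, A ⊆ T ∧ IsArc A x y

/-- The number of the connected components of the subspace `X`. -/
noncomputable def numComponents (X : Set S) : ℕ∞ := ENat.card (ConnectedComponents ↥X)

/-- `x` is an endpoint of the tree `T`: its complement in `T` is connected. -/
def IsEndpoint (T : Set S) (x : S) : Prop := x ∈ T ∧ numComponents (T \ {x}) ≤ 1

/-- `x` is a branch point of the tree `T`: its complement in `T` has more than two components. -/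
def IsBranchPoint (T : Set S) (x : S) : Prop := x ∈ T ∧ 2 < numComponents (T \ {x})

/-- `T` is a spanning tree for `P`: a finite topological tree containing `P` all of whose endpoints
lie in `P`. -/
structure IsSpanningTree (P T : Set S) : Prop where
  tree : IsFiniteTree T
  sub : P ⊆ T
  ends : ∀ x, IsEndpoint T x → x ∈ P

/-- The vertices of a spanning tree for `P`: the points of `P` and the branch points. -/
def vertexSet (P T : Set S) : Set S := P ∪ {x | IsBranchPoint T x}

/-- `H` is an isotopy of `S` which starts at the identity and fixes the points of `P`. -/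
structure IsIsotopy (P : Set S) (H : unitInterval → S → S) : Prop where
  cont : Continuous (fun q : unitInterval × S => H q.1 q.2)
  homeo : ∀ t, IsHomeomorph (H t)
  zero : ∀ x, H 0 x = x
  fix : ∀ t, ∀ x ∈ P, H t x = x

/-- The sets `T` and `T'` are isotopic relative to `P`. -/
def Isotopic (P T T' : Set S) : Prop := ∃ H, IsIsotopy P H ∧ H 1 '' T = T'

/-- The quadratic polynomial `z ^ 2 + c` as a self-map of the Riemann sphere. -/
noncomputable def quad (c : ℂ) : OnePoint ℂ → OnePoint ℂ := OnePoint.map (fun z : ℂ => z ^ 2 + c)

/-- The post-critical set of `z ^ 2 + c`: the forward orbit of the critical value `c`, and `∞`. -/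
def postSet (c : ℂ) : Set (OnePoint ℂ) :=
  insert OnePoint.infty (range fun n : ℕ => (quad c)^[n] (c : OnePoint ℂ))

end Pool.Agent.N224.Ivy
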