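import Pool.Agent.N224.Ivy.Comp

set_option autoImplicit false

open Topology Set unitInterval Filter

namespace Pool.Agent.N224.Ivy

/-! ### neighbourhoods of infinity -/

theorem mem_nhds_infty {s : Set (OnePoint ℂ)} :
    s ∈ 𝓝 (OnePoint.infty : OnePoint ℂ) ↔
      OnePoint.infty ∈ s ∧ ∃ R : ℝ, ∀ z : ℂ, R < ‖z‖ → (z : OnePoint ℂ) ∈ s := by
  constructor
  · intro h
    refine ⟨mem_of_mem_nhds h, ?_⟩
    obtain ⟨K, ⟨-, hK⟩, hs⟩ := OnePoint.hasBasis_nhds_infty.mem_iff.1 h
    obtain ⟨R, hR⟩ := hK.isBounded.subset_closedBall 0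
    refine ⟨R, fun z hz => hs (Or.inl ⟨z, fun hzK => ?_, rfl⟩)⟩
    have := hR hzK
    rw [mem_closedBall_zero_iff] at this
    linarith
  · rintro ⟨h1, R, h2⟩
    refine OnePoint.hasBasis_nhds_infty.mem_iff.2 ⟨Metric.closedBall 0 R,
      ⟨Metric.isClosed_closedBall, isCompact_closedBall 0 R⟩, ?_⟩
    rintro x (⟨z, hz, rfl⟩ | rfl)
    · apply h2
      have : z ∉ Metric.closedBall (0 : ℂ) R := hz
      rw [mem_closedBall_zero_iff] at this
      linarith
    · exact h1

/-- extension of an isotopy of the plane to the sphere -/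
theorem isotopy_of_plane {F : I → ℂ → ℂ} (hc : Continuous fun q : I × ℂ => F q.1 q.2)
    (hb : ∀ t, Function.Bijective (F t)) {a b : ℝ} (ha : 0 < a)
    (hab : ∀ t z, ‖z‖ ≤ a * ‖F t z‖ + b) (h0 : ∀ z, F 0 z = z) {P : Set (OnePoint ℂ)}
    (hP : ∀ z : ℂ, (z : OnePoint ℂ) ∈ P → ∀ t, F t z = z) :
    IsIsotopy P fun t => OnePoint.map (F t) := by
  have hcont : Continuous fun q : I × OnePoint ℂ => OnePoint.map (F q.1) q.2 := by
    rw [continuous_iff_continuousAt]
    rintro ⟨t, x⟩
    induction x using OnePoint.rec with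
    | infty =>
      change Tendsto _ _ _
      simp only [OnePoint.map_infty]
      intro s hs
      obtain ⟨h1, R, h2⟩ := mem_nhds_infty.1 hs
      rw [mem_map, nhds_prod_eq]
      have h3 : {x : OnePoint ℂ | x = OnePoint.infty ∨ ∃ z : ℂ, x = z ∧ a * R + b < ‖z‖} ∈
          𝓝 (OnePoint.infty : OnePoint ℂ) :=
        mem_nhds_infty.2 ⟨Or.inl rfl, a * R + b, fun z hz => Or.inr ⟨z, rfl, hz⟩⟩
      refine mem_of_superset (prod_mem_prod univ_mem h3) ?_
      rintro ⟨t', x⟩ ⟨-, hx⟩
      rcases hx with hx | ⟨z, hx, hz⟩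
      · simp only at hx
        rw [mem_preimage]
        simp only [hx, OnePoint.map_infty]
        exact h1
      · simp only at hx
        rw [mem_preimage]
        simp only [hx, OnePoint.map_some]
        apply h2
        have := hab t' z
        by_contra hcon
        have := mul_le_mul_of_nonneg_left (not_lt.1 hcon) ha.le
        linarith
    | coe z =>
      have he : IsOpenEmbedding (Prod.map id (fun z : ℂ => (z : OnePoint ℂ)) : I × ℂ → _) :=
        IsOpenEmbedding.id.prodMap OnePoint.isOpenEmbedding_coe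
      have h1 := he.continuousAt_iff (g := fun q : I × OnePoint ℂ => OnePoint.map (F q.1) q.2)
        (x := (t, z))
      refine h1.1 ?_
      have h2 : ((fun q : I × OnePoint ℂ => OnePoint.map (F q.1) q.2) ∘
          Prod.map id (fun z : ℂ => (z : OnePoint ℂ))) = fun q : I × ℂ => (F q.1 q.2 : OnePoint ℂ) := by
        funext q
        rfl
      rw [h2]
      exact (OnePoint.continuous_coe.comp hc).continuousAt
  refine ⟨hcont, ?_, ?_, ?_⟩
  · intro t
    rw [isHomeomorph_iff_continuous_bijective]
    refine ⟨hcont.comp (by fun_prop : Continuous fun x : OnePoint ℂ => (t, x)), ?_⟩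
    constructor
    · intro x y hxy
      induction x using OnePoint.rec with
      | infty =>
        induction y using OnePoint.rec with
        | infty => rfl
        | coe w => exact absurd hxy.symm (OnePoint.coe_ne_infty _)
      | coe z =>
        induction y using OnePoint.rec with
        | infty => exact absurd hxy (OnePoint.coe_ne_infty _)
        | coe w =>
          have : F t z = F t w := OnePoint.coe_injective hxy
          rw [(hb t).1 this]
    · intro y
      induction y using OnePoint.rec with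
      | infty => exact ⟨OnePoint.infty, rfl⟩
      | coe w =>
        obtain ⟨z, rfl⟩ := (hb t).2 w
        exact ⟨z, rfl⟩
  · intro x
    induction x using OnePoint.rec with
    | infty => rfl
    | coe z => rw [OnePoint.map_some, h0]
  · intro t x hx
    induction x using OnePoint.rec with
    | infty => rfl
    | coe z => rw [OnePoint.map_some, hP z hx]

/-! ### the shear -/

/-- the horizontal stretching by which the vertical lines become hyperbolas, away from `0` -/
noncomputable def rho (d w u : ℝ) : ℝ := u * Real.sqrt (1 + w / (max |u| d) ^ 2)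

theorem rho_cont {d : ℝ} (hd : 0 < d) : Continuous fun q : ℝ × ℝ => rho d q.1 q.2 := by
  unfold rho
  have h : ∀ q : ℝ × ℝ, (max |q.2| d) ^ 2 ≠ 0 := fun q => by positivity
  have hc : Continuous fun q : ℝ × ℝ => (max |q.2| d) ^ 2 := by fun_prop
  exact continuous_snd.mul (Real.continuous_sqrt.comp
    (continuous_const.add (continuous_fst.div hc h)))

theorem rho_neg (d w u : ℝ) : rho d w (-u) = -rho d w u := by
  unfold rho
  rw [abs_neg]; ring

theorem rho_zero_left (d u : ℝ) : rho d 0 u = u := by
  unfold rho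
  simp

theorem abs_rho {d w : ℝ} (u : ℝ) (hw : 0 ≤ w) : |u| ≤ |rho d w u| := by
  unfold rho
  rw [abs_mul, abs_of_nonneg (Real.sqrt_nonneg _)]
  refine le_mul_of_one_le_right (abs_nonneg _) ?_
  rw [Real.one_le_sqrt]
  have : 0 ≤ w / (max |u| d) ^ 2 := by positivity
  linarith

theorem rho_of_pos {d w u : ℝ} (hd : 0 < d) (hw : 0 ≤ w) (hu : d ≤ u) :
    rho d w u = Real.sqrt (u ^ 2 + w) := by
  have hu0 : 0 < u := hd.trans_le hu
  unfold rho
  rw [abs_of_pos hu0, max_eq_left hu]
  rw [← Real.sqrt_sq hu0.le, ← Real.sqrt_mul (by positivity), Real.sqrt_sq hu0.le]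
  congr 1
  field_simp

theorem rho_lt {d w u u' : ℝ} (hd : 0 < d) (hw : 0 ≤ w) (hu : 0 ≤ u) (h : u < u') :
    rho d w u < rho d w u' := by
  have hu' : 0 < u' := hu.trans_lt h
  have e : ∀ x : ℝ, 0 ≤ x → rho d w x = Real.sqrt (x ^ 2 + w * min 1 (x ^ 2 / d ^ 2)) := by
    intro x hx
    rcases le_or_gt d x with hdx | hdx
    · rw [rho_of_pos hd hw hdx]
      have : 1 ≤ x ^ 2 / d ^ 2 := by
        rw [one_le_div (by positivity)]
        exact pow_le_pow_left₀ hd.le hdx 2
      rw [min_eq_left this, mul_one]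
    · unfold rho
      rw [abs_of_nonneg hx, max_eq_right hdx.le]
      have : x ^ 2 / d ^ 2 ≤ 1 := by
        rw [div_le_one (by positivity)]
        exact pow_le_pow_left₀ hx hdx.le 2
      rw [min_eq_right this]
      rw [← Real.sqrt_sq hx, ← Real.sqrt_mul (by positivity), Real.sqrt_sq hx]
      congr 1
      field_simp
  rw [e u hu, e u' hu'.le]
  apply Real.sqrt_lt_sqrt
  · positivity
  · have h1 : u ^ 2 < u' ^ 2 := pow_lt_pow_left₀ h hu (by norm_num)
    have h2 : min 1 (u ^ 2 / d ^ 2) ≤ min 1 (u' ^ 2 / d ^ 2) :=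
      min_le_min_left _ (div_le_div_of_nonneg_right h1.le (by positivity))
    have := mul_le_mul_of_nonneg_left h2 hw
    linarith

theorem rho_nonneg {d w u : ℝ} (hu : 0 ≤ u) : 0 ≤ rho d w u := mul_nonneg hu (Real.sqrt_nonneg _)

theorem rho_strictMono {d w : ℝ} (hd : 0 < d) (hw : 0 ≤ w) : StrictMono (rho d w) := by
  intro u u' h
  rcases le_or_gt 0 u with hu | hu
  · exact rho_lt hd hw hu h
  · rcases le_or_gt u' 0 with hu' | hu'
    · have := rho_lt (u := -u') (u' := -u) hd hw (by linarith) (by linarith)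
      rw [rho_neg, rho_neg] at this
      linarith
    · have h1 : 0 < rho d w (-u) := by
        have := rho_lt (u := 0) (u' := -u) hd hw le_rfl (by linarith)
        exact (rho_nonneg le_rfl).trans_lt this
      have h2 : 0 < rho d w u' := by
        have := rho_lt (u := 0) (u' := u') hd hw le_rfl hu'
        exact (rho_nonneg le_rfl).trans_lt this
      rw [rho_neg] at h1
      linarith

theorem rho_surj {d w : ℝ} (hd : 0 < d) (hw : 0 ≤ w) : Function.Surjective (rho d w) := by
  have hc : Continuous (rho d w) := (rho_cont hd).comp (by fun_prop : Continuous fun u : ℝ => (w, u))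
  refine hc.surjective ?_ ?_
  · refine tendsto_atTop_mono' _ ?_ tendsto_id
    filter_upwards [eventually_ge_atTop 0] with u hu
    have := abs_rho (d := d) u hw
    rw [abs_of_nonneg hu, abs_of_nonneg (rho_nonneg hu)] at this
    exact this
  · refine tendsto_atBot_mono' _ ?_ tendsto_id
    filter_upwards [eventually_le_atBot 0] with u hu
    have := abs_rho (d := d) u hw
    have h1 : 0 ≤ rho d w (-u) := rho_nonneg (by linarith)
    rw [rho_neg] at h1
    rw [abs_of_nonpos hu, abs_of_nonpos (by linarith)] at this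
    change rho d w u ≤ u
    linarith

theorem rho_bij {d w : ℝ} (hd : 0 < d) (hw : 0 ≤ w) : Function.Bijective (rho d w) :=
  ⟨(rho_strictMono hd hw).injective, rho_surj hd hw⟩

/-- the isotopy of the plane -/
noncomputable def shear (d : ℝ) (g : ℝ → ℝ) (t : I) (z : ℂ) : ℂ :=
  ⟨rho d (t * z.im ^ 2) ((1 - t) * z.re + t * g z.re), z.im⟩

theorem shear_isotopy {d : ℝ} (hd : 0 < d) {g : ℝ → ℝ} (hg : Continuous g) (hm : StrictMono g)
    {B : ℝ} (hB : ∀ u, |g u - u| ≤ B) {P : Set (OnePoint ℂ)}
    (hP : ∀ z : ℂ, (z : OnePoint ℂ) ∈ P → z.im = 0 ∧ g z.re = z.re) :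
    IsIsotopy P fun t => OnePoint.map (shear d g t) := by
  have hB0 : 0 ≤ B := (abs_nonneg _).trans (hB 0)
  have hgt : ∀ (t : I) (u : ℝ), |u| - B ≤ |(1 - (t : ℝ)) * u + t * g u| := by
    intro t u
    have e : (1 - (t : ℝ)) * u + t * g u = u - -(t * (g u - u)) := by ring
    rw [e]
    have h1 := abs_sub_abs_le_abs_sub u (-((t : ℝ) * (g u - u)))
    have h2 : |-((t : ℝ) * (g u - u))| ≤ B := by
      rw [abs_neg, abs_mul, abs_of_nonneg t.2.1]
      have := mul_le_mul t.2.2 (hB u) (abs_nonneg _) zero_le_one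
      linarith
    linarith
  have hgm : ∀ t : I, StrictMono fun u : ℝ => (1 - (t : ℝ)) * u + t * g u := by
    intro t u u' h
    simp only
    have h1 := hm h
    have h2 := t.2.1
    have h3 := t.2.2
    rcases h3.eq_or_lt with h4 | h4
    · rw [h4]; linarith
    · have := mul_lt_mul_of_pos_left h (by linarith : (0 : ℝ) < 1 - t)
      have := mul_le_mul_of_nonneg_left h1.le h2
      linarith
  have hgc : ∀ t : I, Continuous fun u : ℝ => (1 - (t : ℝ)) * u + t * g u := fun t => by fun_prop
  have hgs : ∀ t : I, Function.Surjective fun u : ℝ => (1 - (t : ℝ)) * u + t * g u := by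
    intro t
    have e : ∀ u : ℝ, (1 - (t : ℝ)) * u + t * g u = u + t * (g u - u) := fun u => by ring
    have h2 : ∀ u : ℝ, |(t : ℝ) * (g u - u)| ≤ B := by
      intro u
      rw [abs_mul, abs_of_nonneg t.2.1]
      have := mul_le_mul t.2.2 (hB u) (abs_nonneg _) zero_le_one
      linarith
    refine (hgc t).surjective ?_ ?_
    · refine tendsto_atTop_mono (f := fun u => u + -B) ?_ (tendsto_atTop_add_const_right _ _ tendsto_id)
      intro u
      rw [e]
      have := (abs_le.1 (h2 u)).1
      linarith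
    · refine tendsto_atBot_mono (f := fun u => u + B) ?_ (tendsto_atBot_add_const_right _ _ tendsto_id)
      intro u
      rw [e]
      have := (abs_le.1 (h2 u)).2
      linarith
  refine isotopy_of_plane (a := 2) (b := 2 * B) ?_ ?_ (by norm_num) ?_ ?_ ?_
  · have h1 : Continuous fun q : I × ℂ => rho d (q.1 * q.2.im ^ 2)
        ((1 - q.1) * q.2.re + q.1 * g q.2.re) :=
      (rho_cont hd).comp (by fun_prop : Continuous fun q : I × ℂ =>
        (((q.1 : ℝ) * q.2.im ^ 2 : ℝ), (1 - (q.1 : ℝ)) * q.2.re + q.1 * g q.2.re))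
    have h2 : (fun q : I × ℂ => shear d g q.1 q.2) = fun q : I × ℂ =>
        ((rho d (q.1 * q.2.im ^ 2) ((1 - q.1) * q.2.re + q.1 * g q.2.re) : ℝ) : ℂ) +
          ((q.2.im : ℝ) : ℂ) * Complex.I := by
      funext q
      apply Complex.ext <;> simp [shear]
    rw [h2]
    exact (Complex.continuous_ofReal.comp h1).add
      ((Complex.continuous_ofReal.comp (Complex.continuous_im.comp continuous_snd)).mul
        continuous_const)
  · intro t
    have hw : ∀ v : ℝ, 0 ≤ (t : ℝ) * v ^ 2 := fun v => mul_nonneg t.2.1 (sq_nonneg v)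
    constructor
    · intro z z' h
      have h1 : (shear d g t z).im = (shear d g t z').im := by rw [h]
      have h2 : (shear d g t z).re = (shear d g t z').re := by rw [h]
      replace h1 : z.im = z'.im := h1
      simp only [shear] at h2
      rw [h1] at h2
      have h3 := (rho_bij hd (hw z'.im)).1 h2
      exact Complex.ext ((hgm t).injective h3) h1
    · intro y
      obtain ⟨x, hx⟩ := (rho_bij hd (hw y.im)).2 y.re
      obtain ⟨u, hu⟩ := hgs t x
      refine ⟨⟨u, y.im⟩, ?_⟩
      apply Complex.ext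
      · simp only [shear]
        simp only at hu
        rw [hu, hx]
      · rfl
  · intro t z
    have h1 : |z.re| ≤ ‖shear d g t z‖ + B := by
      have h2 := Complex.abs_re_le_norm (shear d g t z)
      have h3 := abs_rho (d := d) ((1 - (t : ℝ)) * z.re + t * g z.re)
        (mul_nonneg t.2.1 (sq_nonneg z.im))
      have h4 := hgt t z.re
      have h5 : (shear d g t z).re = rho d (t * z.im ^ 2) ((1 - t) * z.re + t * g z.re) := rfl
      rw [h5] at h2
      linarith
    have h2 : |z.im| ≤ ‖shear d g t z‖ := Complex.abs_im_le_norm (shear d g t z)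
    have h3 := Complex.norm_le_abs_re_add_abs_im z
    linarith
  · intro z
    apply Complex.ext
    · simp [shear, rho_zero_left]
    · rfl
  · intro z hz t
    obtain ⟨h1, h2⟩ := hP z hz
    apply Complex.ext
    · simp only [shear]
      rw [h1, h2]
      have e : (t : ℝ) * (0 : ℝ) ^ 2 = 0 := by ring
      rw [e, rho_zero_left]
      ring
    · rfl

/-- the shear at time one maps points of vertical lines to points of hyperbolas -/
theorem shear_one {d : ℝ} (hd : 0 < d) (g : ℝ → ℝ) (x v : ℝ) (h : d ≤ |g x|) :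
    shear d g 1 ⟨x, v⟩ = ⟨SignType.sign (g x) * Real.sqrt ((g x) ^ 2 + v ^ 2), v⟩ := by
  apply Complex.ext
  · simp only [shear]
    have e : (1 - ((1 : I) : ℝ)) * x + ((1 : I) : ℝ) * g x = g x := by
      simp
    have e2 : ((1 : I) : ℝ) * v ^ 2 = v ^ 2 := by simp
    rw [e, e2]
    rcases lt_or_ge 0 (g x) with h0 | h0
    · rw [abs_of_pos h0] at h
      rw [rho_of_pos hd (sq_nonneg v) h, sign_pos h0]
      simp
    · rw [abs_of_nonpos h0] at h
      have h1 : g x < 0 := by linarith
      have h2 : g x = -(-g x) := by ring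
      rw [h2, rho_neg, rho_of_pos hd (sq_nonneg v) h, ← h2, sign_neg h1]
      simp
  · rfl

theorem shear_real (d : ℝ) (g : ℝ → ℝ) (t : I) (x : ℝ) :
    shear d g t (x : ℂ) = (((1 - t) * x + t * g x : ℝ) : ℂ) := by
  apply Complex.ext
  · simp only [shear, Complex.ofReal_im, Complex.ofReal_re]
    have e : (t : ℝ) * (0 : ℝ) ^ 2 = 0 := by ring
    rw [e, rho_zero_left]
  · simp [shear]

end Pool.Agent.N224.Ivy
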