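import Pool.Agent.N224.Ivy.Datum

set_option autoImplicit false

open Topology Set unitInterval Filter

namespace Pool.Agent.N224.Ivy

/-! ### moving one point of the line -/

/-- a homeomorphism of the line which moves `x` to `x'` and nothing outside `(A, B)` -/
noncomputable def bump (A B x x' u : ℝ) : ℝ :=
  u + (x' - x) * max 0 (min ((u - A) / (x - A)) ((B - u) / (B - x)))

section bump

variable {A B x x' : ℝ}

theorem bump_cont : Continuous (bump A B x x') := by
  unfold bump
  fun_prop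

theorem bump_self (h1 : A < x) (h2 : x < B) : bump A B x x' x = x' := by
  unfold bump
  rw [div_self (by linarith), div_self (by linarith)]
  norm_num

theorem bump_out (h1 : A < x) (h2 : x < B) {u : ℝ} (hu : ¬ (A < u ∧ u < B)) :
    bump A B x x' u = u := by
  unfold bump
  have : min ((u - A) / (x - A)) ((B - u) / (B - x)) ≤ 0 := by
    by_cases h : A < u
    · refine min_le_of_right_le ?_
      have : ¬ u < B := fun h' => hu ⟨h, h'⟩
      exact div_nonpos_of_nonpos_of_nonneg (by linarith) (by linarith)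
    · refine min_le_of_left_le ?_
      exact div_nonpos_of_nonpos_of_nonneg (by linarith) (by linarith)
  rw [max_eq_left this]
  ring

theorem bump_bound (h1 : A < x) (h2 : x < B) (u : ℝ) : |bump A B x x' u - u| ≤ |x' - x| := by
  unfold bump
  have e : u + (x' - x) * max 0 (min ((u - A) / (x - A)) ((B - u) / (B - x))) - u =
      (x' - x) * max 0 (min ((u - A) / (x - A)) ((B - u) / (B - x))) := by ring
  rw [e, abs_mul, abs_of_nonneg (le_max_left (0 : ℝ) _)]
  refine mul_le_of_le_one_right (abs_nonneg _) (max_le zero_le_one ?_)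
  rcases le_total u x with h | h
  · refine min_le_of_left_le ?_
    rw [div_le_one (by linarith)]
    linarith
  · refine min_le_of_right_le ?_
    rw [div_le_one (by linarith)]
    linarith

theorem bump_mono (h1 : A < x) (h2 : x < B) (h3 : A < x') (h4 : x' < B) :
    StrictMono (bump A B x x') := by
  intro u u' h
  unfold bump
  set f : ℝ → ℝ := fun v => max 0 (min ((v - A) / (x - A)) ((B - v) / (B - x))) with hf
  have hpos1 : 0 < x - A := by linarith
  have hpos2 : 0 < B - x := by linarith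
  have k1 : f u' ≤ f u + (u' - u) / (x - A) := by
    have hd : 0 ≤ (u' - u) / (x - A) := div_nonneg (by linarith) hpos1.le
    refine max_le ?_ ?_
    · have : 0 ≤ f u := le_max_left _ _
      linarith
    · have e1 : (u' - A) / (x - A) = (u - A) / (x - A) + (u' - u) / (x - A) := by
        rw [← add_div]; congr 1; ring
      have e2 : (B - u') / (B - x) ≤ (B - u) / (B - x) :=
        div_le_div_of_nonneg_right (by linarith) hpos2.le
      have : min ((u' - A) / (x - A)) ((B - u') / (B - x)) ≤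
          min ((u - A) / (x - A)) ((B - u) / (B - x)) + (u' - u) / (x - A) := by
        rw [← min_add_add_right]
        refine le_min ?_ ?_
        · rw [← e1]; exact min_le_left _ _
        · exact (min_le_right _ _).trans (by linarith)
      have h5 : min ((u - A) / (x - A)) ((B - u) / (B - x)) ≤ f u := le_max_right _ _
      linarith
  have k2 : f u ≤ f u' + (u' - u) / (B - x) := by
    have hd : 0 ≤ (u' - u) / (B - x) := div_nonneg (by linarith) hpos2.le
    refine max_le ?_ ?_
    · have : 0 ≤ f u' := le_max_left _ _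
      linarith
    · have e1 : (B - u) / (B - x) = (B - u') / (B - x) + (u' - u) / (B - x) := by
        rw [← add_div]; congr 1; ring
      have e2 : (u - A) / (x - A) ≤ (u' - A) / (x - A) :=
        div_le_div_of_nonneg_right (by linarith) hpos1.le
      have : min ((u - A) / (x - A)) ((B - u) / (B - x)) ≤
          min ((u' - A) / (x - A)) ((B - u') / (B - x)) + (u' - u) / (B - x) := by
        rw [← min_add_add_right]
        refine le_min ?_ ?_
        · exact (min_le_left _ _).trans (by linarith)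
        · rw [← e1]; exact min_le_right _ _
      have h5 : min ((u' - A) / (x - A)) ((B - u') / (B - x)) ≤ f u' := le_max_right _ _
      linarith
  change u + (x' - x) * f u < u' + (x' - x) * f u'
  rcases le_total x x' with hx | hx
  · have h5 : (x' - x) * (f u - f u') ≤ (x' - x) * ((u' - u) / (B - x)) :=
      mul_le_mul_of_nonneg_left (by linarith) (by linarith)
    have h6 : (x' - x) * ((u' - u) / (B - x)) < u' - u := by
      rw [mul_div_assoc', div_lt_iff₀ hpos2]
      nlinarith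
    linarith
  · have h5 : (x - x') * (f u' - f u) ≤ (x - x') * ((u' - u) / (x - A)) :=
      mul_le_mul_of_nonneg_left (by linarith) (by linarith)
    have h6 : (x - x') * ((u' - u) / (x - A)) < u' - u := by
      rw [mul_div_assoc', div_lt_iff₀ hpos1]
      nlinarith
    linarith

end bump

/-! ### levels -/

theorem pr_cont (c : ℝ) : Continuous (pr c) := by
  unfold pr
  fun_prop

theorem pr_iter_cont (c : ℝ) (n : ℕ) : Continuous ((pr c)^[n]) := (pr_cont c).iterate n

theorem pr_iter_even (c : ℝ) {n : ℕ} (hn : 1 ≤ n) (x : ℝ) : (pr c)^[n] (-x) = (pr c)^[n] x := by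
  obtain ⟨n, rfl⟩ := Nat.exists_eq_add_of_le hn
  rw [add_comm, Function.iterate_succ_apply, Function.iterate_succ_apply]
  simp [pr]

theorem pr_iter_abs (c : ℝ) {n : ℕ} (hn : 1 ≤ n) (x : ℝ) : (pr c)^[n] |x| = (pr c)^[n] x := by
  rcases abs_choice x with h | h
  · rw [h]
  · rw [h, pr_iter_even c hn]

theorem pr_iter_succ (c : ℝ) (n : ℕ) (x : ℝ) : (pr c)^[n + 1] x = ((pr c)^[n] x) ^ 2 + c := by
  rw [Function.iterate_succ_apply']
  rfl

/-- a renormalization interval `[-b, b]` of the time `N` -/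
structure Level (c : ℝ) (N : ℕ) (ε b : ℝ) : Prop where
  Npos : 0 < N
  eps : ε = 1 ∨ ε = -1
  one : N = 1 → ε = 1
  bpos : 0 < b
  fix : (pr c)^[N] b = ε * b
  inner : ∀ x, |x| < b → |(pr c)^[N] x| < b
  big : ∀ i, 1 ≤ i → i < N → ∀ x, |x| ≤ b → b ≤ |(pr c)^[i] x|
  per : ∃ n, 0 < n ∧ (pr c)^[N * n] 0 = 0

namespace Level

variable {c : ℝ} {N : ℕ} {ε b : ℝ}

theorem same_sign (L : Level c N ε b) {i : ℕ} (h1 : 1 ≤ i) (h2 : i < N) {x y : ℝ}
    (hx : |x| ≤ b) (hy : |y| ≤ b) : 0 < (pr c)^[i] x * (pr c)^[i] y := by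
  have hb := L.bpos
  have key : ∀ x y : ℝ, |x| ≤ b → |y| ≤ b → (pr c)^[i] x < 0 → 0 < (pr c)^[i] y → False := by
    intro x y hx hy h3 h4
    have hmem : (0 : ℝ) ∈ (pr c)^[i] '' Icc (-b) b := by
      have hord : OrdConnected ((pr c)^[i] '' Icc (-b) b) :=
        (isPreconnected_Icc.image _ (pr_iter_cont c i).continuousOn).ordConnected
      exact hord.out (mem_image_of_mem _ (abs_le.1 hx)) (mem_image_of_mem _ (abs_le.1 hy))
        ⟨h3.le, h4.le⟩
    obtain ⟨z, hz, hz0⟩ := hmem
    have := L.big i h1 h2 z (abs_le.2 hz)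
    rw [hz0, abs_zero] at this
    linarith
  have hx' := L.big i h1 h2 x hx
  have hy' := L.big i h1 h2 y hy
  have hx0 : (pr c)^[i] x ≠ 0 := abs_pos.1 (by linarith)
  have hy0 : (pr c)^[i] y ≠ 0 := abs_pos.1 (by linarith)
  rcases lt_or_gt_of_ne hx0 with h3 | h3 <;> rcases lt_or_gt_of_ne hy0 with h4 | h4
  · exact mul_pos_of_neg_of_neg h3 h4
  · exact (key x y hx hy h3 h4).elim
  · exact (key y x hy hx h4 h3).elim
  · exact mul_pos h3 h4

theorem sign_same (L : Level c N ε b) {i : ℕ} (h1 : 1 ≤ i) (h2 : i < N) {x y : ℝ}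
    (hx : |x| ≤ b) (hy : |y| ≤ b) :
    SignType.sign ((pr c)^[i] x) = SignType.sign ((pr c)^[i] y) := by
  have h := L.same_sign h1 h2 hx hy
  rcases pos_and_pos_or_neg_and_neg_of_mul_pos h with ⟨h3, h4⟩ | ⟨h3, h4⟩
  · rw [sign_pos h3, sign_pos h4]
  · rw [sign_neg h3, sign_neg h4]

theorem sign_add (L : Level c N ε b) {i : ℕ} (h1 : 1 ≤ i) (h2 : i < N) {x y z : ℝ}
    (hx : |x| ≤ b) (hy : |y| ≤ b) (hz : |z| ≤ b) :
    SignType.sign ((pr c)^[i] x + (pr c)^[i] y) = SignType.sign ((pr c)^[i] z) := by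
  have h := L.same_sign h1 h2 hx hz
  have h' := L.same_sign h1 h2 hy hz
  rcases pos_and_pos_or_neg_and_neg_of_mul_pos h with ⟨h3, h4⟩ | ⟨h3, h4⟩
  · have h5 : 0 < (pr c)^[i] y := pos_of_mul_pos_left h' h4.le
    rw [sign_pos h4, sign_pos (by linarith)]
  · have h5 : (pr c)^[i] y < 0 := by
      by_contra h6
      have := mul_nonpos_of_nonneg_of_nonpos (not_lt.1 h6) h4.le
      linarith
    rw [sign_neg h4, sign_neg (by linarith)]

/-- the sign of the change of the iterates in `|x|` -/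
theorem sign_sub (L : Level c N ε b) {i : ℕ} (h1 : 1 ≤ i) (h2 : i ≤ N) :
    ∀ {x y : ℝ}, |x| < |y| → |y| ≤ b →
      SignType.sign ((pr c)^[i] y - (pr c)^[i] x) =
        SignType.sign ((pr c)^[i] b - (pr c)^[i] 0) := by
  have hb := L.bpos
  induction i, h1 using Nat.le_induction with
  | base =>
    intro x y hxy hy
    have e : ∀ x : ℝ, (pr c)^[1] x = x ^ 2 + c := fun x => rfl
    rw [e, e, e, e]
    have h3 : x ^ 2 < y ^ 2 := sq_lt_sq.2 hxy
    rw [sign_pos (by linarith), sign_pos (by nlinarith)]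
  | succ i hi ih =>
    intro x y hxy hy
    have hx : |x| ≤ b := hxy.le.trans hy
    have e : ∀ x y : ℝ, (pr c)^[i + 1] y - (pr c)^[i + 1] x =
        ((pr c)^[i] y - (pr c)^[i] x) * ((pr c)^[i] y + (pr c)^[i] x) := by
      intro x y
      rw [pr_iter_succ, pr_iter_succ]; ring
    rw [e, e, sign_mul, sign_mul, ih (by omega) hxy hy,
      L.sign_add hi (by omega) hy hx (z := b) (by rw [abs_of_pos hb]),
      L.sign_add hi (by omega) (by rw [abs_of_pos hb]) (by rw [abs_zero]; exact hb.le) (z := b)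
        (by rw [abs_of_pos hb])]

theorem dl_ne (L : Level c N ε b) {i : ℕ} (h1 : 1 ≤ i) (h2 : i ≤ N) :
    SignType.sign ((pr c)^[i] b - (pr c)^[i] 0) ≠ 0 := by
  have hb := L.bpos
  induction i, h1 using Nat.le_induction with
  | base =>
    have e : ∀ x : ℝ, (pr c)^[1] x = x ^ 2 + c := fun x => rfl
    rw [e, e, sign_pos (by nlinarith)]
    decide
  | succ i hi ih =>
    have e : (pr c)^[i + 1] b - (pr c)^[i + 1] 0 =
        ((pr c)^[i] b - (pr c)^[i] 0) * ((pr c)^[i] b + (pr c)^[i] 0) := by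
      rw [pr_iter_succ, pr_iter_succ]; ring
    rw [e, sign_mul, L.sign_add hi (by omega) (by rw [abs_of_pos hb])
      (by rw [abs_zero]; exact hb.le) (z := b) (by rw [abs_of_pos hb])]
    refine mul_ne_zero (ih (by omega)) ?_
    rw [sign_ne_zero]
    have := L.big i hi (by omega) b (by rw [abs_of_pos hb])
    exact abs_pos.1 (by linarith)

theorem dl_one (L : Level c N ε b) : SignType.sign ((pr c)^[1] b - (pr c)^[1] 0) = 1 := by
  have hb := L.bpos
  have e : ∀ x : ℝ, (pr c)^[1] x = x ^ 2 + c := fun x => rfl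
  rw [e, e, sign_pos (by nlinarith)]

theorem dl_succ (L : Level c N ε b) {i : ℕ} (h1 : 1 ≤ i) (h2 : i < N) {x : ℝ} (hx : |x| ≤ b) :
    SignType.sign ((pr c)^[i + 1] b - (pr c)^[i + 1] 0) =
      SignType.sign ((pr c)^[i] x) * SignType.sign ((pr c)^[i] b - (pr c)^[i] 0) := by
  have hb := L.bpos
  have e : (pr c)^[i + 1] b - (pr c)^[i + 1] 0 =
      ((pr c)^[i] b + (pr c)^[i] 0) * ((pr c)^[i] b - (pr c)^[i] 0) := by
    rw [pr_iter_succ, pr_iter_succ]; ring
  rw [e, sign_mul, L.sign_add h1 h2 (by rw [abs_of_pos hb])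
    (by rw [abs_zero]; exact hb.le) hx]

theorem dl_N (L : Level c N ε b) :
    SignType.sign ((pr c)^[N] b - (pr c)^[N] 0) = SignType.sign ε := by
  have hb := L.bpos
  have h := abs_lt.1 (L.inner 0 (by rw [abs_zero]; exact hb))
  rw [L.fix]
  rcases L.eps with rfl | rfl
  · rw [sign_pos (by linarith), sign_pos one_pos]
  · rw [sign_neg (by linarith), sign_neg (by norm_num)]

theorem cases_mono (L : Level c N ε b) {i : ℕ} (h1 : 1 ≤ i) (h2 : i ≤ N) :
    (SignType.sign ((pr c)^[i] b - (pr c)^[i] 0) = 1 ∧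
      ∀ x y : ℝ, |x| < |y| → |y| ≤ b → (pr c)^[i] x < (pr c)^[i] y) ∨
    (SignType.sign ((pr c)^[i] b - (pr c)^[i] 0) = -1 ∧
      ∀ x y : ℝ, |x| < |y| → |y| ≤ b → (pr c)^[i] y < (pr c)^[i] x) := by
  have h3 := L.dl_ne h1 h2
  have h4 : SignType.sign ((pr c)^[i] b - (pr c)^[i] 0) = 1 ∨
      SignType.sign ((pr c)^[i] b - (pr c)^[i] 0) = -1 := by
    generalize SignType.sign ((pr c)^[i] b - (pr c)^[i] 0) = s at h3
    revert s
    decide
  rcases h4 with h4 | h4
  · refine Or.inl ⟨h4, fun x y hxy hy => ?_⟩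
    have := L.sign_sub h1 h2 hxy hy
    rw [h4, sign_eq_one_iff] at this
    linarith
  · refine Or.inr ⟨h4, fun x y hxy hy => ?_⟩
    have := L.sign_sub h1 h2 hxy hy
    rw [h4, sign_eq_neg_one_iff] at this
    linarith

theorem inj_abs (L : Level c N ε b) {i : ℕ} (h2 : i ≤ N) {x y : ℝ}
    (hxy : |x| < |y|) (hy : |y| ≤ b) : (pr c)^[i] x ≠ (pr c)^[i] y := by
  rcases Nat.eq_zero_or_pos i with rfl | h1
  · rintro h
    have : x = y := h
    rw [this] at hxy
    exact lt_irrefl _ hxy
  · rcases L.cases_mono h1 h2 with ⟨-, h⟩ | ⟨-, h⟩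
    · exact (h x y hxy hy).ne
    · exact (h x y hxy hy).ne'

/-- the points with smaller absolute value are mapped between -/
theorem between (L : Level c N ε b) {i : ℕ} (h1 : 1 ≤ i) (h2 : i ≤ N) {x t : ℝ}
    (hx : |x| < |t|) (ht : |t| ≤ b) : (pr c)^[i] x ∈ uIcc ((pr c)^[i] t) ((pr c)^[i] 0) := by
  have h0 : (pr c)^[i] 0 = (pr c)^[i] x ∨ |(0 : ℝ)| < |x| := by
    rcases eq_or_ne x 0 with rfl | h
    · exact Or.inl rfl
    · exact Or.inr (by rw [abs_zero]; exact abs_pos.2 h)
  rcases L.cases_mono h1 h2 with ⟨-, h⟩ | ⟨-, h⟩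
  · have h3 := h x t hx ht
    have h4 : (pr c)^[i] 0 ≤ (pr c)^[i] x := by
      rcases h0 with h0 | h0
      · exact h0.le
      · exact (h 0 x h0 (hx.le.trans ht)).le
    exact mem_uIcc.2 (Or.inr ⟨h4, h3.le⟩)
  · have h3 := h x t hx ht
    have h4 : (pr c)^[i] x ≤ (pr c)^[i] 0 := by
      rcases h0 with h0 | h0
      · exact h0.ge
      · exact (h 0 x h0 (hx.le.trans ht)).le
    exact mem_uIcc.2 (Or.inl ⟨h3.le, h4⟩)

/-- separation of the images of the interval -/
theorem sep (L : Level c N ε b) {i i' : ℕ} (h : i < i') (h' : i' < N) {x y : ℝ} (hx : |x| < b)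
    (hy : |y| < b) : (pr c)^[i] x ≠ (pr c)^[i'] y := by
  intro he
  have h1 : (pr c)^[N - i' + i] x = (pr c)^[N] y := by
    rw [Function.iterate_add_apply, he, ← Function.iterate_add_apply, Nat.sub_add_cancel h'.le]
  have h2 := L.inner y hy
  have h3 := L.big (N - i' + i) (by omega) (by omega) x hx.le
  rw [h1] at h3
  linarith

theorem sep' (L : Level c N ε b) {i i' : ℕ} (h : i ≠ i') (hi : i < N) (h' : i' < N) {x y : ℝ}
    (hx : |x| < b) (hy : |y| < b) : (pr c)^[i] x ≠ (pr c)^[i'] y := by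
  rcases lt_or_gt_of_ne h with h1 | h1
  · exact L.sep h1 h' hx hy
  · exact (L.sep h1 hi hy hx).symm

theorem mul_iter_inner (L : Level c N ε b) (m : ℕ) : |(pr c)^[N * m] 0| < b := by
  induction m with
  | zero => simpa using L.bpos
  | succ m ih =>
    rw [Nat.mul_succ, add_comm, Function.iterate_add_apply]
    exact L.inner _ ih

theorem mul_iter_mod (L : Level c N ε b) {n : ℕ} (hn : (pr c)^[N * n] 0 = 0) (m : ℕ) :
    (pr c)^[N * m] 0 = (pr c)^[N * (m % n)] 0 := by
  have h1 : ∀ k, (pr c)^[N * n * k] 0 = 0 := by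
    intro k
    induction k with
    | zero => rfl
    | succ k ih => rw [Nat.mul_succ, Function.iterate_add_apply, hn, ih]
  conv_lhs => rw [← Nat.mod_add_div m n, Nat.mul_add, ← Nat.mul_assoc,
    Function.iterate_add_apply, h1]

/-- a bound for the central part of the orbit of `0` -/
theorem exM (L : Level c N ε b) : ∃ M, 0 ≤ M ∧ M < b ∧ (∀ m, |(pr c)^[N * m] 0| ≤ M) ∧
    ε * (pr c)^[N] M ≤ M := by
  obtain ⟨n, hn, hn0⟩ := L.per
  obtain ⟨m0, -, hm0⟩ := Finset.exists_max_image (Finset.range n)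
    (fun m => |(pr c)^[N * m] 0|) ⟨0, Finset.mem_range.2 hn⟩
  have hall : ∀ m, |(pr c)^[N * m] 0| ≤ |(pr c)^[N * m0] 0| := by
    intro m
    rw [L.mul_iter_mod hn0 m]
    exact hm0 _ (Finset.mem_range.2 (Nat.mod_lt _ hn))
  refine ⟨|(pr c)^[N * m0] 0|, abs_nonneg _, L.mul_iter_inner m0, hall, ?_⟩
  rw [pr_iter_abs c L.Npos, ← Function.iterate_add_apply]
  have h1 := hall (m0 + 1)
  rw [Nat.mul_succ, add_comm] at h1
  refine le_trans ?_ h1
  rcases L.eps with rfl | rfl
  · rw [one_mul]; exact le_abs_self _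
  · rw [neg_one_mul]; exact neg_le_abs _

end Level

end Pool.Agent.N224.Ivy
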