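import Pool.Agent.N224.Ivy.Level

set_option autoImplicit false

open Topology Set unitInterval Filter

namespace Pool.Agent.N224.Ivy

namespace Level

variable {c : ℝ} {N : ℕ} {ε b : ℝ}

theorem sq_mem_uIcc {X Y v : ℝ} (h : 0 < X * Y) (hv : v ∈ uIcc X Y) :
    v ^ 2 + c ∈ uIcc (X ^ 2 + c) (Y ^ 2 + c) := by
  rw [mem_uIcc] at hv ⊢
  rcases pos_and_pos_or_neg_and_neg_of_mul_pos h with ⟨h1, h2⟩ | ⟨h1, h2⟩
  · rcases hv with ⟨h3, h4⟩ | ⟨h3, h4⟩
    · left; constructor <;> nlinarith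
    · right; constructor <;> nlinarith
  · rcases hv with ⟨h3, h4⟩ | ⟨h3, h4⟩
    · right; constructor <;> nlinarith
    · left; constructor <;> nlinarith

theorem mono_uIcc {g : ℝ → ℝ} (hg : Monotone g) {X Y u : ℝ} (hu : u ∈ uIcc X Y) :
    g u ∈ uIcc (g X) (g Y) := by
  rw [mem_uIcc] at hu ⊢
  rcases hu with ⟨h1, h2⟩ | ⟨h1, h2⟩
  · exact Or.inl ⟨hg h1, hg h2⟩
  · exact Or.inr ⟨hg h1, hg h2⟩

theorem abs_le_of_mem_uIcc {X Y u : ℝ} {t : ℝ} (hX : |X| ≤ t) (hY : |Y| ≤ t) (hu : u ∈ uIcc X Y) :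
    |u| ≤ t := by
  rw [abs_le] at hX hY ⊢
  rw [mem_uIcc] at hu
  rcases hu with ⟨h1, h2⟩ | ⟨h1, h2⟩ <;> constructor <;> linarith [hX.1, hX.2, hY.1, hY.2]

/-- the index of the leg as an element of `1, …, N` -/
def ix (N i : ℕ) : ℕ := if i = 0 then N else i

/-- the next index -/
def nxt (N i : ℕ) : ℕ := if i + 1 = N then 0 else i + 1

theorem ix_nxt {i : ℕ} : ix N (nxt N i) = i + 1 := by
  unfold ix nxt
  by_cases h : i + 1 = N
  · rw [if_pos h, if_pos rfl, h]
  · rw [if_neg h, if_neg (by omega)]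

theorem nxt_lt {i : ℕ} (h : i < N) : nxt N i < N := by
  unfold nxt
  split_ifs <;> omega

theorem exists_datum (L : Level c N ε b) :
    ∃ (nx : Fin N → Fin N) (ξ m δ : Fin N → ℝ) (g : ℝ → ℝ), Datum c nx ξ m δ g := by
  obtain ⟨M, hM0, hMb, hM, hMG⟩ := L.exM
  have hb := L.bpos
  have hN := L.Npos
  have hεa : |ε| = 1 := by rcases L.eps with h | h <;> rw [h] <;> norm_num
  have hεε : ε * ε = 1 := by rcases L.eps with h | h <;> rw [h] <;> norm_num
  obtain ⟨t, htM, htb⟩ : ∃ t, M < t ∧ t < b := exists_between hMb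
  have ht0 : 0 < t := by linarith
  have hεt : |ε * t| = t := by rw [abs_mul, hεa, one_mul, abs_of_pos ht0]
  -- the moved base point
  obtain ⟨t', ht'M, ht'b, ht'⟩ : ∃ t', M < t' ∧ t' < b ∧ (pr c)^[N] t' = ε * t := by
    have hcont : ContinuousOn (fun x => ε * (pr c)^[N] x) (Icc M b) :=
      (continuous_const.mul (pr_iter_cont c N)).continuousOn
    have h1 := intermediate_value_Ioo hMb.le hcont
    have h2 : t ∈ Ioo (ε * (pr c)^[N] M) (ε * (pr c)^[N] b) :=
      ⟨by linarith, by rw [L.fix, ← mul_assoc, hεε, one_mul]; exact htb⟩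
    obtain ⟨t', h3, h4⟩ := h1 h2
    refine ⟨t', h3.1, h3.2, ?_⟩
    simp only at h4
    rw [← h4, ← mul_assoc, hεε, one_mul]
  have ht'0 : 0 < t' := by linarith
  -- the gap
  have hgap : ∀ y, M < y → y < b →
      min ((pr c)^[N - 1] M) ((pr c)^[N - 1] b) < (pr c)^[N - 1] y ∧
        (pr c)^[N - 1] y < max ((pr c)^[N - 1] M) ((pr c)^[N - 1] b) := by
    intro y h1 h2
    rcases Nat.eq_zero_or_pos (N - 1) with h0 | h0
    · rw [h0]
      simp only [Function.iterate_zero, id]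
      exact ⟨min_lt_of_left_lt h1, lt_max_of_lt_right h2⟩
    · have hy : |y| = y := abs_of_pos (by linarith)
      have hMa : |M| = M := abs_of_nonneg hM0
      have hba : |b| = b := abs_of_pos hb
      rcases L.cases_mono h0 (by omega) with ⟨-, h⟩ | ⟨-, h⟩
      · exact ⟨min_lt_of_left_lt (h M y (by rw [hMa, hy]; exact h1) (by rw [hy]; exact h2.le)),
          lt_max_of_lt_right (h y b (by rw [hba, hy]; exact h2) hba.le)⟩
      · exact ⟨min_lt_of_right_lt (h y b (by rw [hba, hy]; exact h2) hba.le),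
          lt_max_of_lt_left (h M y (by rw [hMa, hy]; exact h1) (by rw [hy]; exact h2.le))⟩
  have hgap' : ∀ u, min ((pr c)^[N - 1] M) ((pr c)^[N - 1] b) < u →
      u < max ((pr c)^[N - 1] M) ((pr c)^[N - 1] b) →
      ∃ y, M < y ∧ y < b ∧ (pr c)^[N - 1] y = u := by
    intro u h1 h2
    have h3 := intermediate_value_uIcc (a := M) (b := b) (f := (pr c)^[N - 1])
      (pr_iter_cont c _).continuousOn
    have h4 : u ∈ uIcc ((pr c)^[N - 1] M) ((pr c)^[N - 1] b) := ⟨h1.le, h2.le⟩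
    obtain ⟨y, hy, rfl⟩ := h3 h4
    rw [uIcc_of_le hMb.le] at hy
    refine ⟨y, lt_of_le_of_ne hy.1 ?_, lt_of_le_of_ne hy.2 ?_, rfl⟩
    · rintro rfl
      rcases le_total ((pr c)^[N - 1] M) ((pr c)^[N - 1] b) with h | h
      · rw [min_eq_left h] at h1
        exact lt_irrefl _ h1
      · rw [max_eq_left h] at h2
        exact lt_irrefl _ h2
    · rintro rfl
      rcases le_total ((pr c)^[N - 1] M) ((pr c)^[N - 1] y) with h | h
      · rw [max_eq_right h] at h2
        exact lt_irrefl _ h2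
      · rw [min_eq_right h] at h1
        exact lt_irrefl _ h1
  have hX := hgap t htM htb
  have hX' := hgap t' ht'M ht'b
  obtain ⟨g, hg⟩ : ∃ g, g = bump (min ((pr c)^[N - 1] M) ((pr c)^[N - 1] b))
    (max ((pr c)^[N - 1] M) ((pr c)^[N - 1] b)) ((pr c)^[N - 1] t) ((pr c)^[N - 1] t') := ⟨_, rfl⟩
  have gmono : StrictMono g := by rw [hg]; exact bump_mono hX.1 hX.2 hX'.1 hX'.2
  have gX : g ((pr c)^[N - 1] t) = (pr c)^[N - 1] t' := by rw [hg]; exact bump_self hX.1 hX.2
  have gout1 : ∀ i, i < N - 1 → ∀ x, |x| < b → g ((pr c)^[i] x) = (pr c)^[i] x := by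
    intro i hi x hx
    rw [hg]
    apply bump_out hX.1 hX.2
    rintro ⟨h1, h2⟩
    obtain ⟨y, hy1, hy2, hy3⟩ := hgap' _ h1 h2
    exact L.sep hi (by omega) hx (by rw [abs_of_pos (by linarith)]; exact hy2) hy3.symm
  have gout2 : ∀ x, |x| ≤ M → g ((pr c)^[N - 1] x) = (pr c)^[N - 1] x := by
    intro x hx
    rw [hg]
    apply bump_out hX.1 hX.2
    rintro ⟨h1, h2⟩
    obtain ⟨y, hy1, hy2, hy3⟩ := hgap' _ h1 h2
    have hy : |y| = y := abs_of_pos (by linarith)
    exact L.inj_abs (by omega) (x := x) (y := y) (by rw [hy]; linarith)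
      (by rw [hy]; exact hy2.le) hy3.symm
  have gP : ∀ i, i < N → ∀ x, |x| ≤ M → g ((pr c)^[i] x) = (pr c)^[i] x := by
    intro i hi x hx
    rcases Nat.lt_or_ge i (N - 1) with h | h
    · exact gout1 i h x (by linarith)
    · have : i = N - 1 := by omega
      rw [this]
      exact gout2 x hx
  -- the data
  obtain ⟨nx, hnx⟩ : ∃ nx : Fin N → Fin N, ∀ i, (nx i : ℕ) = nxt N i :=
    ⟨fun i => ⟨nxt N i, nxt_lt i.2⟩, fun i => rfl⟩
  obtain ⟨ξ, hξ⟩ : ∃ ξ : Fin N → ℝ, ∀ i, ξ i = (pr c)^[(i : ℕ)] (ε * t) := ⟨_, fun i => rfl⟩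
  obtain ⟨m, hm⟩ : ∃ m : Fin N → ℝ, ∀ i, m i = (pr c)^[ix N i] 0 := ⟨_, fun i => rfl⟩
  have hm' : ∀ i, ∃ x, |x| ≤ M ∧ m i = (pr c)^[(i : ℕ)] x := by
    intro i
    by_cases h : (i : ℕ) = 0
    · refine ⟨(pr c)^[N] 0, by simpa using hM 1, ?_⟩
      rw [hm, ix, if_pos h, h]
      rfl
    · refine ⟨0, by simpa using hM0, ?_⟩
      rw [hm, ix, if_neg h]
  have hgm : ∀ i, g (m i) = m i := by
    intro i
    obtain ⟨x, hx, h⟩ := hm' i
    rw [h]
    exact gP i i.2 x hx
  -- the moved base points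
  have key : ∀ i : Fin N, ∃ z, M < |z| ∧ |z| < b ∧ g (ξ i) = (pr c)^[(i : ℕ)] z ∧
      (pr c)^[(i : ℕ) + 1] z = ξ (nx i) ∧ ((i : ℕ) = 0 → 0 < ε * z) := by
    intro i
    rcases Nat.lt_or_ge (i : ℕ) (N - 1) with h | h
    · refine ⟨ε * t, by rw [hεt]; exact htM, by rw [hεt]; exact htb, ?_, ?_, ?_⟩
      · rw [hξ]
        exact gout1 i h _ (by rw [hεt]; exact htb)
      · have : nxt N i = i + 1 := by
          unfold nxt
          rw [if_neg (by omega)]
        rw [hξ, hnx, this]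
      · intro _
        rw [← mul_assoc, hεε, one_mul]
        exact ht0
    · have hi : (i : ℕ) = N - 1 := by have := i.2; omega
      have ht'a : |t'| = t' := abs_of_pos ht'0
      refine ⟨t', by rw [ht'a]; exact ht'M, by rw [ht'a]; exact ht'b, ?_, ?_, ?_⟩
      · rw [hξ, hi]
        rcases Nat.eq_zero_or_pos (N - 1) with h0 | h0
        · have hε1 : ε = 1 := L.one (by omega)
          rw [hε1, one_mul]
          exact gX
        · rw [← pr_iter_abs c h0, hεt]
          exact gX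
      · have h1 : nxt N i = 0 := by
          unfold nxt
          rw [if_pos (by omega)]
        have h2 : N - 1 + 1 = N := by omega
        rw [hξ, hnx, h1, hi, h2, ht']
        rfl
      · intro h0
        have hε1 : ε = 1 := L.one (by omega)
        rw [hε1, one_mul]
        exact ht'0
  have hseg : ∀ i : Fin N, ∀ u ∈ uIcc (ξ i) (m i), ∃ x, |x| ≤ t ∧ (pr c)^[(i : ℕ)] x = u := by
    intro i u hu
    by_cases h : (i : ℕ) = 0
    · refine ⟨u, ?_, by rw [h]; rfl⟩
      refine abs_le_of_mem_uIcc ?_ ?_ hu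
      · rw [hξ, h]
        exact hεt.le
      · obtain ⟨x, hx, h'⟩ := hm' i
        rw [h', h]
        exact hx.trans htM.le
    · rw [hξ, hm, ix, if_neg h] at hu
      obtain ⟨x, hx, rfl⟩ := intermediate_value_uIcc (pr_iter_cont c _).continuousOn hu
      exact ⟨x, abs_le_of_mem_uIcc hεt.le (by rw [abs_zero]; exact ht0.le) hx, rfl⟩
  have hpt : ∀ n : ℕ, (pr c)^[n + 1] 0 = (pr c)^[(n + 1) % N] ((pr c)^[N * ((n + 1) / N)] 0) := by
    intro n
    rw [← Function.iterate_add_apply, Nat.mod_add_div]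
  refine ⟨nx, ξ, m, fun i => (SignType.sign ((pr c)^[ix N i] b - (pr c)^[ix N i] 0) : ℝ), g, ?_⟩
  have hix : ∀ i : Fin N, 1 ≤ ix N i ∧ ix N i ≤ N := by
    intro i
    have := i.2
    unfold ix
    split_ifs <;> omega
  refine { ne := ?_, disj := ?_, dir := ?_, gne := ?_, dirnx := ?_, base := ?_, segm := ?_,
           post := ?_, tip := ?_, gfix := ?_, gcont := ?_, gmono := gmono, gbd := ?_ }
  · intro i he
    obtain ⟨x, hx, h⟩ := hm' i
    rw [h, hξ] at he
    exact L.inj_abs i.2.le (x := x) (y := ε * t) (by rw [hεt]; linarith)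
      (by rw [hεt]; exact htb.le) he.symm
  · intro i i' hi
    rw [Set.disjoint_left]
    intro u h1 h2
    obtain ⟨x, hx, hxu⟩ := hseg i u h1
    obtain ⟨y, hy, hyu⟩ := hseg i' u h2
    exact L.sep' (fun h => hi (Fin.ext h)) i.2 i'.2 (hx.trans_lt htb) (hy.trans_lt htb)
      (hxu.trans hyu.symm)
  · intro i
    have h := L.dl_ne (hix i).1 (hix i).2
    generalize SignType.sign ((pr c)^[ix N i] b - (pr c)^[ix N i] 0) = s at h
    cases s with
    | zero => exact absurd rfl h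
    | neg => simp
    | pos => simp
  · intro i
    obtain ⟨z, hz1, hz2, hz3, -, -⟩ := key i
    rw [hz3]
    by_cases h : (i : ℕ) = 0
    · rw [h]
      have : 0 < |z| := by linarith
      exact abs_pos.1 this
    · have := L.big i (by omega) i.2 z hz2.le
      exact abs_pos.1 (by linarith)
  · intro i
    obtain ⟨z, hz1, hz2, hz3, -, hz5⟩ := key i
    rw [hnx, ix_nxt, hz3]
    by_cases h : (i : ℕ) = 0
    · have h1 : ix N i = N := by rw [ix, if_pos h]
      rw [h1, h, zero_add, L.dl_one, L.dl_N]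
      have h2 := hz5 h
      have h3 : (pr c)^[0] z = z := rfl
      rw [h3]
      rcases L.eps with h4 | h4
      · rw [h4] at h2 ⊢
        rw [sign_pos (by linarith : 0 < z), sign_pos one_pos]
        norm_num
      · rw [h4] at h2 ⊢
        rw [sign_neg (by linarith : z < 0), sign_neg (by norm_num : (-1 : ℝ) < 0)]
        norm_num
    · have h1 : ix N i = i := by rw [ix, if_neg h]
      rw [h1, L.dl_succ (by omega) i.2 hz2.le]
      push_cast
      rfl
  · intro i
    obtain ⟨z, hz1, hz2, hz3, hz4, -⟩ := key i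
    rw [hz3, ← hz4, pr_iter_succ]
  · intro i u hu
    obtain ⟨z, hz1, hz2, hz3, hz4, -⟩ := key i
    have hv := mono_uIcc gmono.monotone hu
    rw [hgm, hz3] at hv
    rw [← hz4, pr_iter_succ]
    have hmn : m (nx i) = ((pr c)^[(i : ℕ)] 0) ^ 2 + c := by
      rw [hm, hnx, ix_nxt, pr_iter_succ]
    rw [hmn]
    by_cases h : (i : ℕ) = 0
    · rw [h] at hv ⊢
      have h3 : ∀ y, (pr c)^[0] y = y := fun y => rfl
      rw [h3] at hv ⊢
      rw [h3]
      obtain ⟨x, hx, h'⟩ := hm' i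
      rw [h, h3] at h'
      have h5 : |g u| ≤ |z| := abs_le_of_mem_uIcc le_rfl (by rw [h']; linarith) hv
      have h6 := sq_le_sq.2 h5
      rw [mem_uIcc]
      right
      constructor <;> nlinarith [sq_nonneg (g u)]
    · have h1 : m i = (pr c)^[(i : ℕ)] 0 := by rw [hm, ix, if_neg h]
      rw [h1] at hv
      exact sq_mem_uIcc (L.same_sign (by omega) i.2 hz2.le (by rw [abs_zero]; exact hb.le)) hv
  · intro n
    refine ⟨⟨(n + 1) % N, Nat.mod_lt _ hN⟩, ?_⟩
    rw [hξ, hm, hpt]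
    have hx := hM ((n + 1) / N)
    by_cases h : (n + 1) % N = 0
    · simp only [h, ix, if_true, Function.iterate_zero, id]
      have hk : (n + 1) / N ≠ 0 := by
        intro h0
        have := Nat.mod_add_div (n + 1) N
        rw [h, h0] at this
        omega
      obtain ⟨k, hk⟩ := Nat.exists_eq_succ_of_ne_zero hk
      rw [hk, Nat.succ_eq_add_one] at hx ⊢
      have e : (pr c)^[N * (k + 1)] 0 = (pr c)^[N] ((pr c)^[N * k] 0) := by
        rw [← Function.iterate_add_apply, Nat.mul_succ, add_comm]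
      have h1 := L.between (i := N) hN le_rfl (x := (pr c)^[N * k] 0) (t := b)
        (by rw [abs_of_pos hb]; exact L.mul_iter_inner k) (by rw [abs_of_pos hb])
      rw [← e, L.fix] at h1
      have h2 := abs_le.1 hx
      rw [mem_uIcc] at h1 ⊢
      rcases L.eps with h4 | h4
      · rw [h4] at h1 ⊢
        right
        rcases h1 with ⟨h5, h6⟩ | ⟨h5, h6⟩
        · exfalso; linarith
        · exact ⟨h5, by linarith⟩
      · rw [h4] at h1 ⊢
        left
        rcases h1 with ⟨h5, h6⟩ | ⟨h5, h6⟩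
        · exact ⟨by linarith, h6⟩
        · exfalso; linarith
    · have h1 : ix N ((n + 1) % N) = (n + 1) % N := by rw [ix, if_neg h]
      have h2 := Nat.mod_lt (n + 1) hN
      simp only [h1]
      exact L.between (by omega) h2.le (by rw [hεt]; linarith) (by rw [hεt]; exact htb.le)
  · intro i
    refine ⟨ix N i - 1, ?_⟩
    rw [hm, Nat.sub_add_cancel (hix i).1]
  · intro n
    rw [hpt]
    exact gP _ (Nat.mod_lt _ hN) _ (hM _)
  · rw [hg]; exact bump_cont
  · exact ⟨_, fun u => by rw [hg]; exact bump_bound hX.1 hX.2 u⟩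

/-- the spanning tree of a level -/
theorem tree (L : Level c N ε b) :
    ∃ (T : Set (OnePoint ℂ)) (H : I → OnePoint ℂ → OnePoint ℂ),
      IsSpanningTree (postSet (c : ℂ)) T ∧ vertexSet (postSet (c : ℂ)) T = postSet (c : ℂ) ∧
      numComponents (T \ {OnePoint.infty}) = N ∧
      IsIsotopy (postSet (c : ℂ)) H ∧ quad (c : ℂ) '' (H 1 '' T) ⊆ T := by
  obtain ⟨nx, ξ, m, δ, g, D⟩ := L.exists_datum
  have : Nonempty (Fin N) := ⟨⟨0, L.Npos⟩⟩
  obtain ⟨T, H, h1, h2, h3, h4, h5⟩ := D.tree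
  refine ⟨T, H, h1, h2, ?_, h4, h5⟩
  rw [h3]
  simp

end Level

end Pool.Agent.N224.Ivy
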