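import Pool.Agent.N224.Ivy.Tower

set_option autoImplicit false

open Topology Set unitInterval

namespace Pool.Agent.N224.Ivy

theorem postSet_finite {c : ℝ} {n : ℕ} (hn : 0 < n) (h : (pr c)^[n] 0 = 0) :
    (postSet (c : ℂ)).Finite := by
  unfold postSet
  refine Set.Finite.insert _ ?_
  refine ((Set.finite_lt_nat n).image fun i => ((((pr c)^[i] 0 : ℝ) : ℂ) : OnePoint ℂ)).subset ?_
  rintro _ ⟨m, rfl⟩
  refine ⟨(m + 1) % n, Nat.mod_lt _ hn, ?_⟩
  have h1 : Function.IsPeriodicPt (pr c) n 0 := h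
  beta_reduce
  rw [h1.iterate_mod_apply, quad_iter_real, Function.iterate_succ_apply, pr_zero]

/-- the trees of all levels -/
theorem main (k : ℕ) : ∃ c : ℂ, (postSet c).Finite ∧ ∀ j ≤ k,
    ∃ (T : Set (OnePoint ℂ)) (H : I → OnePoint ℂ → OnePoint ℂ),
      IsSpanningTree (postSet c) T ∧ vertexSet (postSet c) T = postSet c ∧
      numComponents (T \ {OnePoint.infty}) = (2 ^ j : ℕ) ∧
      IsIsotopy (postSet c) H ∧ quad c '' (H 1 '' T) ⊆ T := by
  obtain ⟨c, b, hT, h0⟩ := exists_tower k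
  refine ⟨c, postSet_finite (n := 2 ^ k) (by positivity) (by rw [pr_iter_pow, h0, mul_zero]), ?_⟩
  intro j hj
  exact (hT.level h0 hj).tree

/-- isotopic sets have the same number of complementary components at a fixed point -/
theorem Isotopic.numComponents_eq {S : Type*} [TopologicalSpace S] {P T T' : Set S}
    (h : Isotopic P T T') {x : S} (hx : x ∈ P) :
    numComponents (T \ {x}) = numComponents (T' \ {x}) := by
  obtain ⟨H, hH, rfl⟩ := h
  let e : S ≃ₜ S := (hH.homeo 1).homeomorph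
  have he : ∀ y, e y = H 1 y := fun y => rfl
  have h1 : H 1 '' T \ {x} = e '' (T \ {x}) := by
    rw [← image_diff_singleton, he, hH.fix 1 x hx]
    rfl
  rw [h1, numComponents_image]

theorem spanning_isotopic {S : Type*} [TopologicalSpace S] {P T : Set S}
    {H : I → S → S} (hT : IsSpanningTree P T) (hH : IsIsotopy P H) :
    IsSpanningTree P (H 1 '' T) ∧ vertexSet P (H 1 '' T) = H 1 '' vertexSet P T :=
  hT.image (hH.homeo 1).homeomorph fun x hx => hH.fix 1 x hx

theorem lt_encard {α : Type*} {s : Set α} {k : ℕ} {φ : Fin (k + 1) → α}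
    (h : Function.Injective φ) (hs : ∀ j, φ j ∈ s) : (k : ℕ∞) < s.encard := by
  have h1 : ENat.card (Fin (k + 1)) ≤ s.encard :=
    h.encard_range.trans (encard_le_encard (by rintro _ ⟨j, rfl⟩; exact hs j))
  have h2 : ENat.card (Fin (k + 1)) = ((k + 1 : ℕ) : ℕ∞) := by simp
  rw [h2] at h1
  refine lt_of_lt_of_le ?_ h1
  exact_mod_cast Nat.lt_succ_self k

end Pool.Agent.N224.Ivy
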