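import Pool.Agent.N224.Ivy.LevelTree

set_option autoImplicit false

open Topology Set Filter

namespace Pool.Agent.N224.Ivy

/-- the renormalized maps, with the sign changed so that they increase on the positive side -/
def G (c : ℝ) : ℕ → ℝ → ℝ
  | 0, x => x ^ 2 + c
  | (j + 1), x => -G c j (G c j x)

theorem G_cont (j : ℕ) : Continuous fun q : ℝ × ℝ => G q.1 j q.2 := by
  induction j with
  | zero => simp only [G]; fun_prop
  | succ j ih =>
    simp only [G]
    exact (ih.comp (continuous_fst.prodMk ih)).neg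

theorem G_even (c : ℝ) (j : ℕ) (x : ℝ) : G c j (-x) = G c j x := by
  induction j with
  | zero => simp [G]
  | succ j ih => simp only [G]; rw [ih]

theorem pr_iter_pow (c : ℝ) (j : ℕ) (x : ℝ) : (pr c)^[2 ^ j] x = (-1) ^ j * G c j x := by
  induction j generalizing x with
  | zero => simp [G, pr]
  | succ j ih =>
    have e : 2 ^ (j + 1) = 2 ^ j + 2 ^ j := by ring
    rw [e, Function.iterate_add_apply, ih, ih]
    have e2 : G c j ((-1) ^ j * G c j x) = G c j (G c j x) := by
      rcases neg_one_pow_eq_or ℝ j with h | h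
      · rw [h, one_mul]
      · rw [h, neg_one_mul, G_even]
    rw [e2]
    simp only [G]
    rw [pow_succ]
    ring

/-- a renormalization interval of a unimodal map -/
structure Ren (f : ℝ → ℝ) (b : ℝ) : Prop where
  bpos : 0 < b
  fix : f b = b
  mono : StrictMonoOn f (Icc 0 b)
  ge : -b ≤ f 0

theorem apply_abs {f : ℝ → ℝ} (he : ∀ x, f (-x) = f x) (x : ℝ) : f |x| = f x := by
  rcases abs_choice x with h | h
  · rw [h]
  · rw [h, he]

theorem Ren.maps {f : ℝ → ℝ} {b : ℝ} (R : Ren f b) (he : ∀ x, f (-x) = f x) {x : ℝ}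
    (hx : |x| ≤ b) : f 0 ≤ f x ∧ f x ≤ b := by
  have hb := R.bpos
  rw [← apply_abs he x]
  constructor
  · exact R.mono.monotoneOn ⟨le_rfl, hb.le⟩ ⟨abs_nonneg _, hx⟩ (abs_nonneg _)
  · conv_rhs => rw [← R.fix]
    exact R.mono.monotoneOn ⟨abs_nonneg _, hx⟩ ⟨hb.le, le_rfl⟩ hx

theorem Ren.step {f : ℝ → ℝ} {b : ℝ} (R : Ren f b) (hc : Continuous f) (he : ∀ x, f (-x) = f x)
    (h0 : f 0 < 0) : ∃ b', 0 < b' ∧ b' < b ∧ f b' = -b' ∧ -f (f b') = b' ∧
      StrictMonoOn (fun x => -f (f x)) (Icc 0 b') ∧ ∀ y, 0 ≤ y → y ≤ b → f y + y ≤ 0 → y ≤ b' := by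
  have hb := R.bpos
  have hcont : ContinuousOn (fun x => f x + x) (Icc 0 b) := (hc.add continuous_id).continuousOn
  obtain ⟨b', hb', h1⟩ := intermediate_value_Ioo hb.le hcont
    (show (0 : ℝ) ∈ Ioo (f 0 + 0) (f b + b) from ⟨by linarith, by rw [R.fix]; linarith⟩)
  have h2 : f b' = -b' := by simp only at h1; linarith
  refine ⟨b', hb'.1, hb'.2, h2, ?_, ?_, ?_⟩
  · rw [h2, he, h2, neg_neg]
  · intro x hx y hy hxy
    have hx' : x ∈ Icc 0 b := ⟨hx.1, hx.2.trans hb'.2.le⟩
    have hy' : y ∈ Icc 0 b := ⟨hy.1, hy.2.trans hb'.2.le⟩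
    have h3 := R.mono hx' hy' hxy
    have h4 : f y ≤ -b' := by
      rw [← h2]
      exact R.mono.monotoneOn hy' ⟨hb'.1.le, hb'.2.le⟩ hy.2
    have h5 : -b ≤ f x := R.ge.trans (R.maps he (abs_le.2 ⟨by linarith [hx.1], hx'.2⟩)).1
    have h6 : f (-f y) < f (-f x) :=
      R.mono ⟨by linarith [hb'.1], by linarith⟩ ⟨by linarith [hb'.1], by linarith⟩ (by linarith)
    rw [he, he] at h6
    change -f (f x) < -f (f y)
    linarith
  · intro y hy0 hyb hy
    by_contra hcon
    have := R.mono ⟨hb'.1.le, hb'.2.le⟩ ⟨hy0, hyb⟩ (not_le.1 hcon)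
    rw [h2] at this
    linarith [not_le.1 hcon]

/-- the data of `k` successive period doubling renormalizations -/
structure Tower (c : ℝ) (k : ℕ) (b : ℕ → ℝ) : Prop where
  ren : ∀ j ≤ k, Ren (G c j) (b j)
  lt : ∀ j < k, b (j + 1) < b j
  anti : ∀ j < k, G c j (b (j + 1)) = -b (j + 1)
  neg : ∀ j < k, G c j 0 < 0

theorem Tower.level {c : ℝ} {k : ℕ} {b : ℕ → ℝ} (T : Tower c k b) (h0 : G c k 0 = 0) {j : ℕ}
    (hj : j ≤ k) : Level c (2 ^ j) ((-1) ^ j) (b j) := by
  have hbig : ∀ j ≤ k, ∀ i, 1 ≤ i → i < 2 ^ j → ∀ x, |x| ≤ b j → b j ≤ |(pr c)^[i] x| := by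
    intro j
    induction j with
    | zero =>
      intro _ i h1 h2
      simp at h2
      omega
    | succ j ih =>
      intro hj i h1 h2 x hx
      have hlt := T.lt j (by omega)
      have hb' := (T.ren (j + 1) hj).bpos
      have R := T.ren j (by omega)
      have hx' : |x| ≤ b j := hx.trans hlt.le
      have hm : |(pr c)^[2 ^ j] x| = |G c j x| := by
        rw [pr_iter_pow, abs_mul, abs_pow, abs_neg, abs_one, one_pow, one_mul]
      rcases lt_trichotomy i (2 ^ j) with h3 | h3 | h3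
      · exact hlt.le.trans (ih (by omega) i h1 h3 x hx')
      · rw [h3, hm]
        have h4 : G c j |x| ≤ G c j (b (j + 1)) :=
          R.mono.monotoneOn ⟨abs_nonneg _, hx'⟩ ⟨hb'.le, hlt.le⟩ hx
        rw [apply_abs (G_even c j), T.anti j (by omega)] at h4
        rw [le_abs]
        right
        linarith
      · have e : (pr c)^[i] x = (pr c)^[i - 2 ^ j] ((pr c)^[2 ^ j] x) := by
          rw [← Function.iterate_add_apply, Nat.sub_add_cancel h3.le]
        rw [e]
        refine hlt.le.trans (ih (by omega) _ (by omega) ?_ _ ?_)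
        · have : 2 ^ (j + 1) = 2 ^ j + 2 ^ j := by ring
          omega
        · rw [hm]
          have h5 := R.maps (G_even c j) hx'
          exact abs_le.2 ⟨by linarith [R.ge], h5.2⟩
  have R := T.ren j hj
  have hstrict : -b j < G c j 0 := by
    rcases hj.eq_or_lt with rfl | h
    · rw [h0]
      linarith [R.bpos]
    · refine lt_of_le_of_ne R.ge ?_
      intro he
      have h1 := (T.ren (j + 1) (by omega)).ge
      simp only [G] at h1
      rw [← he, G_even, R.fix] at h1
      linarith [T.lt j h]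
  refine { Npos := by positivity, eps := neg_one_pow_eq_or ℝ j, one := ?_, bpos := R.bpos,
           fix := ?_, inner := ?_, big := hbig j hj, per := ?_ }
  · intro h
    have : j = 0 := by
      by_contra hne
      have : 1 < 2 ^ j := Nat.one_lt_pow hne (by norm_num)
      omega
    rw [this, pow_zero]
  · rw [pr_iter_pow, R.fix]
  · intro x hx
    rw [pr_iter_pow, abs_mul, abs_pow, abs_neg, abs_one, one_pow, one_mul]
    have h1 := R.maps (G_even c j) hx.le
    refine abs_lt.2 ⟨by linarith, ?_⟩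
    rw [← apply_abs (G_even c j) x]
    conv_rhs => rw [← R.fix]
    exact R.mono ⟨abs_nonneg _, hx.le⟩ ⟨R.bpos.le, le_rfl⟩ hx
  · refine ⟨2 ^ (k - j), by positivity, ?_⟩
    rw [← pow_add, Nat.add_sub_cancel' hj, pr_iter_pow, h0, mul_zero]

/-! ### the parameters -/

theorem G_lip (j : ℕ) : ∀ M : ℝ, ∃ L : ℝ, 0 < L ∧ ∀ c, -2 ≤ c → c ≤ 0 → ∀ x y, |x| ≤ M → |y| ≤ M →
    |G c j x| ≤ L ∧ |G c j x - G c j y| ≤ L * |x ^ 2 - y ^ 2| := by
  induction j with
  | zero =>
    intro M
    refine ⟨M ^ 2 + 3, by positivity, fun c h1 h2 x y hx hy => ?_⟩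
    simp only [G]
    have h3 : x ^ 2 ≤ M ^ 2 := by
      rw [← sq_abs x]
      exact pow_le_pow_left₀ (abs_nonneg x) hx 2
    constructor
    · rw [abs_le]
      constructor <;> nlinarith [sq_nonneg x]
    · have e : x ^ 2 + c - (y ^ 2 + c) = x ^ 2 - y ^ 2 := by ring
      rw [e]
      refine le_mul_of_one_le_left (abs_nonneg _) ?_
      nlinarith [sq_nonneg M]
  | succ j ih =>
    intro M
    obtain ⟨L1, hL1, h1⟩ := ih M
    obtain ⟨L2, hL2, h2⟩ := ih L1
    refine ⟨L2 + L2 * (2 * L1 * L1), by positivity, fun c hc hc' x y hx hy => ?_⟩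
    obtain ⟨h3, h4⟩ := h1 c hc hc' x y hx hy
    obtain ⟨h5, -⟩ := h1 c hc hc' y x hy hx
    obtain ⟨h6, h7⟩ := h2 c hc hc' (G c j x) (G c j y) h3 h5
    simp only [G]
    constructor
    · rw [abs_neg]
      have : 0 ≤ L2 * (2 * L1 * L1) := by positivity
      linarith
    · have e : -G c j (G c j x) - -G c j (G c j y) = -(G c j (G c j x) - G c j (G c j y)) := by ring
      rw [e, abs_neg]
      have e2 : |G c j x ^ 2 - G c j y ^ 2| ≤ 2 * L1 * |G c j x - G c j y| := by
        have e3 : G c j x ^ 2 - G c j y ^ 2 = (G c j x + G c j y) * (G c j x - G c j y) := by ring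
        rw [e3, abs_mul]
        refine mul_le_mul_of_nonneg_right ?_ (abs_nonneg _)
        have := abs_add_le (G c j x) (G c j y)
        linarith
      have hA : 0 ≤ |x ^ 2 - y ^ 2| := abs_nonneg _
      calc |G c j (G c j x) - G c j (G c j y)| ≤ L2 * |G c j x ^ 2 - G c j y ^ 2| := h7
        _ ≤ L2 * (2 * L1 * |G c j x - G c j y|) := mul_le_mul_of_nonneg_left e2 hL2.le
        _ ≤ L2 * (2 * L1 * (L1 * |x ^ 2 - y ^ 2|)) := by
          refine mul_le_mul_of_nonneg_left ?_ hL2.le
          exact mul_le_mul_of_nonneg_left h4 (by positivity)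
        _ = L2 * (2 * L1 * L1) * |x ^ 2 - y ^ 2| := by ring
        _ ≤ (L2 + L2 * (2 * L1 * L1)) * |x ^ 2 - y ^ 2| :=
          mul_le_mul_of_nonneg_right (by linarith) hA

theorem first_zero {F : ℝ → ℝ} (hF : Continuous F) {a b : ℝ} (hab : a ≤ b) (ha : F a < 0)
    (hb : 0 ≤ F b) : ∃ v, a < v ∧ v ≤ b ∧ F v = 0 ∧ ∀ c, a ≤ c → c < v → F c < 0 := by
  have hcomp : IsCompact (Icc a b ∩ {c | 0 ≤ F c}) :=
    isCompact_Icc.inter_right (isClosed_le continuous_const hF)
  obtain ⟨v, ⟨hv1, hv2⟩, hv3⟩ := hcomp.exists_isLeast ⟨b, ⟨hab, le_rfl⟩, hb⟩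
  have hv2' : 0 ≤ F v := hv2
  obtain ⟨z, hz, hz0⟩ := intermediate_value_Icc hv1.1 hF.continuousOn (show (0 : ℝ) ∈
    Icc (F a) (F v) from ⟨ha.le, hv2'⟩)
  have h1 : v ≤ z := hv3 ⟨⟨hz.1, hz.2.trans hv1.2⟩, show 0 ≤ F z from hz0.ge⟩
  have h2 : z = v := le_antisymm hz.2 h1
  rw [h2] at hz0
  refine ⟨v, lt_of_le_of_ne hv1.1 ?_, hv1.2, hz0, ?_⟩
  · rintro rfl
    linarith
  · intro c hc1 hc2
    by_contra hcon
    have := hv3 ⟨⟨hc1, hc2.le.trans hv1.2⟩, show 0 ≤ F c from not_lt.1 hcon⟩
    linarith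

theorem last_zero {F : ℝ → ℝ} (hF : Continuous F) {a b : ℝ} (hab : a ≤ b) (ha : F a ≤ 0)
    (hb : 0 < F b) : ∃ u, a ≤ u ∧ u < b ∧ F u = 0 ∧ ∀ c, u < c → c ≤ b → 0 < F c := by
  obtain ⟨v, h1, h2, h3, h4⟩ := first_zero (F := fun x => -F (-x)) (a := -b) (b := -a)
    (by fun_prop) (by linarith) (by simpa using hb) (by simpa using ha)
  refine ⟨-v, by linarith, by linarith, by simpa using h3, fun c hc1 hc2 => ?_⟩
  have := h4 (-c) (by linarith) (by linarith)
  simpa using this

theorem base_ren {c : ℝ} (h1 : -2 ≤ c) (h2 : c ≤ 0) : ∃ b, Ren (G c 0) b := by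
  have h3 : 1 ≤ Real.sqrt (1 - 4 * c) := by
    rw [Real.one_le_sqrt]; linarith
  have h4 : Real.sqrt (1 - 4 * c) ≤ 3 := by
    rw [show (3 : ℝ) = Real.sqrt 9 by
      rw [show (9 : ℝ) = 3 ^ 2 by norm_num, Real.sqrt_sq (by norm_num)]]
    exact Real.sqrt_le_sqrt (by linarith)
  have h5 : Real.sqrt (1 - 4 * c) ^ 2 = 1 - 4 * c := Real.sq_sqrt (by linarith)
  set s := Real.sqrt (1 - 4 * c) with hs
  refine ⟨(1 + s) / 2, by linarith, ?_, ?_, ?_⟩
  · simp only [G]; nlinarith
  · intro x hx y hy hxy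
    simp only [G]
    nlinarith [hx.1, hy.1]
  · simp only [G]
    nlinarith

theorem exists_interval (j : ℕ) : ∃ u v : ℝ, -2 ≤ u ∧ u < v ∧ v ≤ 0 ∧
    (∀ c, u ≤ c → c ≤ v → ∃ b, Tower c j b) ∧ G v j 0 = 0 ∧
    (∀ c, u ≤ c → c < v → G c j 0 < 0) ∧ G u j (G u j 0) = -G u j 0 := by
  induction j with
  | zero =>
    refine ⟨-2, 0, le_rfl, by norm_num, le_rfl, ?_, by simp [G], ?_, ?_⟩
    · intro c h1 h2
      obtain ⟨b, hb⟩ := base_ren h1 h2
      refine ⟨fun _ => b, ⟨?_, ?_, ?_, ?_⟩⟩
      · intro j hj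
        obtain rfl : j = 0 := by omega
        exact hb
      · intro j hj; omega
      · intro j hj; omega
      · intro j hj; omega
    · intro c h1 h2
      simp only [G]
      linarith
    · simp only [G]; norm_num
  | succ j ih =>
    obtain ⟨u, v, hu2, huv, hv0, hT, hGv, hneg, hGu⟩ := ih
    have hFc : Continuous fun c => G c (j + 1) 0 :=
      (G_cont (j + 1)).comp (by fun_prop : Continuous fun c : ℝ => (c, (0 : ℝ)))
    have hGc : Continuous fun c => G c j 0 :=
      (G_cont j).comp (by fun_prop : Continuous fun c : ℝ => (c, (0 : ℝ)))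
    -- a parameter near `v`
    obtain ⟨c1, hc1u, hc1v, hc1⟩ : ∃ c1, u < c1 ∧ c1 < v ∧ 0 < G c1 (j + 1) 0 := by
      obtain ⟨L, hL, hLip⟩ := G_lip j 1
      have h1 : Tendsto (fun c => G c j 0) (𝓝[<] v) (𝓝 0) := by
        have := hGc.tendsto v
        rw [hGv] at this
        exact this.mono_left nhdsWithin_le_nhds
      have h2 : ∀ᶠ c in 𝓝[<] v, |G c j 0| < min 1 L⁻¹ := by
        have h3 : Ioo (-(min 1 L⁻¹)) (min 1 L⁻¹) ∈ 𝓝 (0 : ℝ) := by
          have : 0 < min 1 L⁻¹ := by positivity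
          exact Ioo_mem_nhds (by linarith) this
        filter_upwards [h1 h3] with c hc
        exact abs_lt.2 hc
      have h3 : ∀ᶠ c in 𝓝[<] v, u < c ∧ c < v := by
        filter_upwards [Ioo_mem_nhdsLT huv] with c hc
        exact hc
      obtain ⟨c1, hc1, hc2, hc3⟩ := (h2.and h3).exists
      refine ⟨c1, hc2, hc3, ?_⟩
      have h4 := hneg c1 hc2.le hc3
      have h5 : |G c1 j 0| < 1 := hc1.trans_le (min_le_left _ _)
      have h6 : |G c1 j 0| < L⁻¹ := hc1.trans_le (min_le_right _ _)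
      have h7 := (hLip c1 (by linarith) (by linarith) (G c1 j 0) 0 h5.le (by simp)).2
      simp only [G]
      rw [abs_of_neg h4] at h6
      have h8 : L * -G c1 j 0 < 1 := by
        rw [lt_inv_comm₀ (by linarith) hL] at h6
        rw [lt_inv_comm₀ hL (by linarith)] at h6
        have := mul_lt_mul_of_pos_left h6 hL
        rwa [mul_inv_cancel₀ hL.ne'] at this
      have h9 := (abs_le.1 h7).2
      have e : (G c1 j 0) ^ 2 - 0 ^ 2 = (G c1 j 0) ^ 2 := by ring
      rw [e, abs_of_nonneg (sq_nonneg _)] at h9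
      nlinarith
    have hFu : G u (j + 1) 0 < 0 := by
      simp only [G]
      rw [hGu, neg_neg]
      exact hneg u le_rfl huv
    obtain ⟨v', hv'1, hv'2, hv'3, hv'4⟩ := first_zero hFc hc1u.le hFu hc1.le
    have hv'v : v' < v := hv'2.trans_lt hc1v
    -- the other end
    have hPc : Continuous fun c => G c (j + 1) 0 - G c j (G c (j + 1) 0) :=
      hFc.sub ((G_cont j).comp (continuous_id.prodMk hFc))
    have hPu : G u (j + 1) 0 - G u j (G u (j + 1) 0) ≤ 0 := by
      have e : G u (j + 1) 0 = G u j 0 := by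
        simp only [G]
        rw [hGu, neg_neg]
      rw [e, hGu]
      have := hneg u le_rfl huv
      linarith
    have hPv : 0 < G v' (j + 1) 0 - G v' j (G v' (j + 1) 0) := by
      rw [hv'3]
      have := hneg v' hv'1.le hv'v
      linarith
    obtain ⟨u', hu'1, hu'2, hu'3, hu'4⟩ := last_zero hPc hv'1.le hPu hPv
    refine ⟨u', v', by linarith, hu'2, by linarith, ?_, hv'3, ?_, ?_⟩
    · intro c hc1' hc2'
      obtain ⟨b, T⟩ := hT c (by linarith) (by linarith)
      have R := T.ren j le_rfl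
      have h0 : G c j 0 < 0 := hneg c (by linarith) (by linarith)
      have hcj : Continuous (G c j) :=
        (G_cont j).comp (by fun_prop : Continuous fun x : ℝ => (c, x))
      obtain ⟨b', h1, h2, h3, h4, h5, h6⟩ := R.step hcj (G_even c j) h0
      have hF : G c (j + 1) 0 ≤ 0 := by
        rcases hc2'.eq_or_lt with h | h
        · rw [h, hv'3]
        · exact (hv'4 c (by linarith) h).le
      have hP : 0 ≤ G c (j + 1) 0 - G c j (G c (j + 1) 0) := by
        rcases hc1'.eq_or_lt with h | h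
        · rw [← h, hu'3]
        · exact (hu'4 c h hc2').le
      have hFb : -b j ≤ G c (j + 1) 0 := by
        have h7 := R.maps (G_even c j) (x := G c j 0) (by
          have := R.ge
          rw [abs_le]; constructor <;> linarith [R.bpos])
        simp only [G]
        linarith [h7.2]
      have h7 := h6 (-G c (j + 1) 0) (by linarith) (by linarith) (by rw [G_even]; linarith)
      refine ⟨Function.update b (j + 1) b', ⟨?_, ?_, ?_, ?_⟩⟩
      · intro i hi
        rcases Nat.lt_or_ge i (j + 1) with h | h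
        · rw [Function.update_of_ne (by omega)]
          exact T.ren i (by omega)
        · obtain rfl : i = j + 1 := by omega
          rw [Function.update_self]
          exact ⟨h1, h4, h5, by linarith⟩
      · intro i hi
        rcases Nat.lt_or_ge i j with h | h
        · rw [Function.update_of_ne (by omega), Function.update_of_ne (by omega)]
          exact T.lt i h
        · obtain rfl : i = j := by omega
          rw [Function.update_self, Function.update_of_ne (by omega)]
          exact h2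
      · intro i hi
        rcases Nat.lt_or_ge i j with h | h
        · rw [Function.update_of_ne (by omega)]
          exact T.anti i h
        · obtain rfl : i = j := by omega
          rw [Function.update_self]
          exact h3
      · intro i hi
        rcases Nat.lt_or_ge i j with h | h
        · exact T.neg i h
        · obtain rfl : i = j := by omega
          exact h0
    · intro c h1 h2
      exact hv'4 c (by linarith) h2
    · have h1 : G u' j (G u' (j + 1) 0) = G u' (j + 1) 0 := by linarith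
      have e : G u' (j + 1) (G u' (j + 1) 0) = -G u' j (G u' j (G u' (j + 1) 0)) := rfl
      rw [e, h1, h1]

/-- there are parameters with arbitrarily many period doubling renormalizations -/
theorem exists_tower (k : ℕ) : ∃ (c : ℝ) (b : ℕ → ℝ), Tower c k b ∧ G c k 0 = 0 := by
  obtain ⟨u, v, h1, h2, h3, h4, h5, -⟩ := exists_interval k
  obtain ⟨b, hb⟩ := h4 v h2.le le_rfl
  exact ⟨v, b, hb, h5⟩

end Pool.Agent.N224.Ivy
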