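import Pool.Agent.N224.Ivy.Defs

set_option autoImplicit false
set_option linter.unusedSectionVars false
set_option linter.style.haveILetI false

open Topology Set unitInterval

namespace Pool.Agent.N224.Ivy

variable {S : Type*} [TopologicalSpace S]

/-- arcs `γ r` starting at `v` which meet only at `v` -/
structure Wedge {ι : Type} (γ : ι → I → S) (v : S) : Prop where
  cont : ∀ r, Continuous (γ r)
  inj : ∀ r, Function.Injective (γ r)
  zero : ∀ r, γ r 0 = v
  disj : ∀ r r' s t, r ≠ r' → γ r s = γ r' t → s = 0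

/-- the union of the arcs -/
def wed {ι : Type} (γ : ι → I → S) : Set S := ⋃ r, range (γ r)

theorem mem_wed {ι : Type} {γ : ι → I → S} {x : S} : x ∈ wed γ ↔ ∃ r t, γ r t = x := by
  simp [wed]

namespace Wedge

variable {ι : Type} {γ : ι → I → S} {v : S}

theorem disj' (h : Wedge γ v) {r r' : ι} {s t : I} (hr : r ≠ r') (he : γ r s = γ r' t) :
    s = 0 ∧ t = 0 := ⟨h.disj r r' s t hr he, h.disj r' r t s hr.symm he.symm⟩

theorem eq_zero (h : Wedge γ v) {r : ι} {s : I} (he : γ r s = v) : s = 0 :=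
  h.inj r (he.trans (h.zero r).symm)

open Classical in
/-- the coordinate on the arc `r` -/
noncomputable def co (γ : ι → I → S) (r : ι) (x : S) : ℝ :=
  if h : ∃ t, γ r t = x then (h.choose : ℝ) else 0

theorem co_self (h : Wedge γ v) (r : ι) (t : I) : co γ r (γ r t) = t := by
  have h1 : ∃ s, γ r s = γ r t := ⟨t, rfl⟩
  unfold co
  rw [dif_pos h1]
  rw [h.inj r h1.choose_spec]

theorem co_other (h : Wedge γ v) {r r' : ι} (hr : r ≠ r') (t : I) : co γ r (γ r' t) = 0 := by
  unfold co
  split_ifs with h1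
  · have h2 := h.disj' hr h1.choose_spec
    rw [h2.1]; rfl
  · rfl

theorem co_nonneg (r : ι) (x : S) : 0 ≤ co γ r x := by
  unfold co
  split_ifs with h1
  · exact h1.choose.2.1
  · exact le_rfl

theorem co_le_one (r : ι) (x : S) : co γ r x ≤ 1 := by
  unfold co
  split_ifs with h1
  · exact h1.choose.2.2
  · exact zero_le_one

theorem co_v (h : Wedge γ v) (r : ι) : co γ r v = 0 := by
  rw [← h.zero r, h.co_self]; rfl

/-- a point with positive coordinate lies on the arc -/
theorem of_co_pos {r : ι} {x : S} (hx : 0 < co γ r x) :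
    ∃ t : I, γ r t = x ∧ (t : ℝ) = co γ r x := by
  unfold co at hx ⊢
  split_ifs at hx ⊢ with h1
  · exact ⟨h1.choose, h1.choose_spec, rfl⟩
  · exact absurd hx (lt_irrefl _)

theorem co_cont [T2Space S] [Finite ι] [TopologicalSpace ι] [DiscreteTopology ι] (h : Wedge γ v)
    (r : ι) : ContinuousOn (co γ r) (wed γ) := by
  rw [continuousOn_iff_continuous_domRestrict]
  let Γ : ι × I → wed γ := fun q => ⟨γ q.1 q.2, mem_wed.2 ⟨q.1, q.2, rfl⟩⟩
  have hΓ : Continuous Γ := by
    apply Continuous.subtype_mk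
    rw [continuous_prod_of_discrete_left]
    exact h.cont
  have hsurj : Function.Surjective Γ := by
    rintro ⟨x, hx⟩
    obtain ⟨r, t, rfl⟩ := mem_wed.1 hx
    exact ⟨(r, t), rfl⟩
  have hq : IsQuotientMap Γ := by
    haveI : CompactSpace ι := Finite.compactSpace
    exact hΓ.isClosedMap.isQuotientMap hΓ hsurj
  rw [hq.continuous_iff]
  rw [continuous_prod_of_discrete_left]
  intro r'
  by_cases hr : r' = r
  · subst hr
    have : (fun b => ((wed γ).domRestrict (co γ r') ∘ Γ) (r', b)) = fun t : I => (t : ℝ) := by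
      funext t
      exact h.co_self r' t
    rw [this]
    exact continuous_subtype_val
  · have : (fun b => ((wed γ).domRestrict (co γ r) ∘ Γ) (r', b)) = fun t : I => (0 : ℝ) := by
      funext t
      exact h.co_other (Ne.symm hr) t
    rw [this]
    exact continuous_const

/-- a connected subset of the wedge containing `x` and a point with a smaller coordinate `s` contains
the part of the arc between them -/
theorem seg [T2Space S] [Finite ι] (h : Wedge γ v) {B : Set S} (hB : IsPreconnected B)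
    (hs : B ⊆ wed γ) {r : ι} {x y : S} (hx : x ∈ B) (hy : y ∈ B) {t : I}
    (h1 : co γ r y < t) (h2 : (t : ℝ) ≤ co γ r x) : γ r t ∈ B := by
  letI : TopologicalSpace ι := ⊥
  haveI : DiscreteTopology ι := ⟨rfl⟩
  have hc : ContinuousOn (co γ r) B := (h.co_cont r).mono hs
  have himg := hB.image _ hc
  have hmem : (t : ℝ) ∈ co γ r '' B :=
    himg.ordConnected.out (mem_image_of_mem _ hy) (mem_image_of_mem _ hx) ⟨h1.le, h2⟩
  obtain ⟨z, hz, hzt⟩ := hmem
  have hpos : 0 < co γ r z := by
    rw [hzt]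
    exact (co_nonneg r y).trans_lt h1
  obtain ⟨t', ht', ht''⟩ := of_co_pos hpos
  have : t' = t := Subtype.ext (ht''.trans hzt)
  rw [← this, ht']
  exact hz

end Wedge

/-! ### uniqueness of arcs -/

theorem IsArc.subset_eq [T2Space S] {A B : Set S} {x y : S} (hA : IsArc A x y) (hB : IsArc B x y)
    (h : A ⊆ B) : A = B := by
  obtain ⟨α, hαc, -, hα0, hα1, rfl⟩ := hA
  obtain ⟨β, hβc, hβi, hβ0, hβ1, rfl⟩ := hB
  have hemb : IsClosedEmbedding β := hβc.isClosedEmbedding hβi
  have hex : ∀ u : I, ∃ t : I, β t = α u := fun u => h (mem_range_self u)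
  choose φ hφ using hex
  have hφc : Continuous φ := by
    rw [hemb.isInducing.continuous_iff]
    have : β ∘ φ = α := funext hφ
    rw [this]
    exact hαc
  have h0 : φ 0 = 0 := hβi (by rw [hφ, hα0, hβ0])
  have h1 : φ 1 = 1 := hβi (by rw [hφ, hα1, hβ1])
  refine subset_antisymm h ?_
  rintro _ ⟨t, rfl⟩
  have : t ∈ range φ := mem_range_of_exists_le_of_exists_ge hφc ⟨0, by rw [h0]; exact t.2.1⟩
    ⟨1, by rw [h1]; exact t.2.2⟩
  obtain ⟨u, rfl⟩ := this
  exact ⟨u, (hφ u).symm⟩

theorem IsArc.symm {A : Set S} {x y : S} (hA : IsArc A x y) : IsArc A y x := by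
  obtain ⟨α, h1, h2, h3, h4, h5⟩ := hA
  refine ⟨α ∘ unitInterval.symm, h1.comp unitInterval.continuous_symm,
    h2.comp unitInterval.symm_bijective.injective, ?_, ?_, ?_⟩
  · simp [h4]
  · simp [h3]
  · rw [(unitInterval.symm_bijective.surjective).range_comp, h5]

theorem IsArc.isCompact {A : Set S} {x y : S} (hA : IsArc A x y) : IsCompact A := by
  obtain ⟨α, h1, -, -, -, rfl⟩ := hA
  exact isCompact_range h1

theorem IsArc.isConnected {A : Set S} {x y : S} (hA : IsArc A x y) : IsConnected A := by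
  obtain ⟨α, h1, -, -, -, rfl⟩ := hA
  exact isConnected_range h1

theorem IsArc.left_mem {A : Set S} {x y : S} (hA : IsArc A x y) : x ∈ A := by
  obtain ⟨α, h1, -, rfl, -, rfl⟩ := hA
  exact mem_range_self _

theorem IsArc.right_mem {A : Set S} {x y : S} (hA : IsArc A x y) : y ∈ A := hA.symm.left_mem

/-- the affine path in the unit interval -/
def lin (s t u : I) : I :=
  ⟨(1 - u) * s + u * t, by
    have := s.2.1; have := t.2.1; have := u.2.1; have := u.2.2
    have : (0 : ℝ) ≤ 1 - u := by linarith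
    positivity, by
    have h1 := s.2.2; have h2 := t.2.2; have h3 := u.2.1; have h4 := u.2.2
    have h5 : (0 : ℝ) ≤ 1 - u := by linarith
    nlinarith [mul_le_mul_of_nonneg_left h1 h5, mul_le_mul_of_nonneg_left h2 h3]⟩

theorem lin_coe (s t u : I) : (lin s t u : ℝ) = (1 - u) * s + u * t := rfl

theorem lin_cont (s t : I) : Continuous (lin s t) := by
  apply Continuous.subtype_mk
  fun_prop

theorem lin_inj {s t : I} (h : s ≠ t) : Function.Injective (lin s t) := by
  intro u u' he
  have h1 : (1 - (u : ℝ)) * s + u * t = (1 - (u' : ℝ)) * s + u' * t := congrArg Subtype.val he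
  have h2 : ((u : ℝ) - u') * ((t : ℝ) - s) = 0 := by linarith
  rcases mul_eq_zero.1 h2 with h3 | h3
  · exact Subtype.ext (by linarith)
  · exact absurd (Subtype.ext (by linarith)) h

theorem lin_zero (s t : I) : lin s t 0 = s := Subtype.ext (by simp [lin_coe])

theorem lin_one (s t : I) : lin s t 1 = t := Subtype.ext (by simp [lin_coe])

namespace Wedge

variable {ι : Type} {γ : ι → I → S} {v : S}

/-- the arc between two points of the same arc of the wedge -/
theorem arc_same (h : Wedge γ v) (r : ι) {s t : I} (hst : s ≠ t) :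
    IsArc (range (γ r ∘ lin s t)) (γ r s) (γ r t) :=
  ⟨γ r ∘ lin s t, (h.cont r).comp (lin_cont s t), (h.inj r).comp (lin_inj hst),
    by simp [lin_zero], by simp [lin_one], rfl⟩

theorem same_sub [T2Space S] [Finite ι] (h : Wedge γ v) {B : Set S} (hB : IsPreconnected B)
    (hs : B ⊆ wed γ) {r : ι} {s t : I} (hst : s < t) (h1 : γ r s ∈ B) (h2 : γ r t ∈ B) {u : I}
    (hu1 : s ≤ u) (hu2 : u ≤ t) : γ r u ∈ B := by
  rcases hu1.eq_or_lt with rfl | hlt
  · exact h1
  · refine h.seg hB hs h2 h1 ?_ ?_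
    · rw [h.co_self]; exact_mod_cast hlt
    · rw [h.co_self]; exact_mod_cast hu2

theorem uniq_same [T2Space S] [Finite ι] (h : Wedge γ v) {r : ι} {s t : I} (hst : s < t)
    {B : Set S} (hs : B ⊆ wed γ) (hB : IsArc B (γ r s) (γ r t)) :
    B = range (γ r ∘ lin s t) := by
  symm
  refine (h.arc_same r hst.ne).subset_eq hB ?_
  rintro _ ⟨u, rfl⟩
  have hst' : (s : ℝ) < t := by exact_mod_cast hst
  refine h.same_sub hB.isConnected.isPreconnected hs hst hB.left_mem hB.right_mem ?_ ?_
  · change (s : ℝ) ≤ lin s t u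
    rw [lin_coe]
    nlinarith [u.2.1]
  · change (lin s t u : ℝ) ≤ t
    rw [lin_coe]
    nlinarith [u.2.2]

/-- the path through the centre -/
noncomputable def thru (γ : ι → I → S) (r r' : ι) (s t : I) (u : I) : S :=
  if (u : ℝ) ≤ 1 / 2 then γ r (projIcc 0 1 zero_le_one (s * (1 - 2 * u)))
  else γ r' (projIcc 0 1 zero_le_one (t * (2 * u - 1)))

theorem thru_left {r r' : ι} {s t u : I} (hu : (u : ℝ) ≤ 1 / 2) :
    ∃ w : I, (w : ℝ) = s * (1 - 2 * u) ∧ thru γ r r' s t u = γ r w := by
  have h1 := s.2.1; have h2 := s.2.2; have h3 := u.2.1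
  refine ⟨projIcc 0 1 zero_le_one (s * (1 - 2 * u)), ?_, by rw [thru, if_pos hu]⟩
  rw [projIcc_of_mem zero_le_one ⟨by nlinarith, by nlinarith⟩]

theorem thru_right {r r' : ι} {s t u : I} (hu : 1 / 2 < (u : ℝ)) :
    ∃ w : I, (w : ℝ) = t * (2 * u - 1) ∧ thru γ r r' s t u = γ r' w := by
  have h1 := t.2.1; have h2 := t.2.2; have h3 := u.2.2
  refine ⟨projIcc 0 1 zero_le_one (t * (2 * u - 1)), ?_, by rw [thru, if_neg (not_le.2 hu)]⟩
  rw [projIcc_of_mem zero_le_one ⟨by nlinarith, by nlinarith⟩]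

theorem thru_cont (h : Wedge γ v) (r r' : ι) (s t : I) : Continuous (thru γ r r' s t) := by
  unfold thru
  refine Continuous.if_le ?_ ?_ continuous_subtype_val continuous_const ?_
  · exact (h.cont r).comp (continuous_projIcc.comp (by fun_prop))
  · exact (h.cont r').comp (continuous_projIcc.comp (by fun_prop))
  · intro u hu
    have e1 : (s : ℝ) * (1 - 2 * u) = 0 := by rw [hu]; ring
    have e2 : (t : ℝ) * (2 * u - 1) = 0 := by rw [hu]; ring
    have e3 : projIcc (0 : ℝ) 1 zero_le_one 0 = 0 := projIcc_left _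
    rw [e1, e2, e3, h.zero, h.zero]

theorem thru_inj (h : Wedge γ v) {r r' : ι} (hr : r ≠ r') {s t : I} (hs : 0 < s) (ht : 0 < t) :
    Function.Injective (thru γ r r' s t) := by
  have hs' : (0 : ℝ) < s := by exact_mod_cast hs
  have ht' : (0 : ℝ) < t := by exact_mod_cast ht
  intro u u' he
  rcases le_or_gt (u : ℝ) (1 / 2) with hu | hu <;> rcases le_or_gt (u' : ℝ) (1 / 2) with hu' | hu'
  · obtain ⟨w, hw, e⟩ := thru_left (γ := γ) (r := r) (r' := r') (s := s) (t := t) hu
    obtain ⟨w', hw', e'⟩ := thru_left (γ := γ) (r := r) (r' := r') (s := s) (t := t) hu'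
    rw [e, e'] at he
    have h1 := congrArg Subtype.val (h.inj r he)
    rw [hw, hw'] at h1
    have h2 := mul_left_cancel₀ hs'.ne' h1
    exact Subtype.ext (by linarith)
  · obtain ⟨w, hw, e⟩ := thru_left (γ := γ) (r := r) (r' := r') (s := s) (t := t) hu
    obtain ⟨w', hw', e'⟩ := thru_right (γ := γ) (r := r) (r' := r') (s := s) (t := t) hu'
    rw [e, e'] at he
    have h1 := (h.disj' hr he).2
    rw [h1] at hw'
    have h2 : (0 : ℝ) = t * (2 * u' - 1) := hw'
    nlinarith
  · obtain ⟨w, hw, e⟩ := thru_right (γ := γ) (r := r) (r' := r') (s := s) (t := t) hu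
    obtain ⟨w', hw', e'⟩ := thru_left (γ := γ) (r := r) (r' := r') (s := s) (t := t) hu'
    rw [e, e'] at he
    have h1 := (h.disj' hr he.symm).2
    rw [h1] at hw
    have h2 : (0 : ℝ) = t * (2 * u - 1) := hw
    nlinarith
  · obtain ⟨w, hw, e⟩ := thru_right (γ := γ) (r := r) (r' := r') (s := s) (t := t) hu
    obtain ⟨w', hw', e'⟩ := thru_right (γ := γ) (r := r) (r' := r') (s := s) (t := t) hu'
    rw [e, e'] at he
    have h1 := congrArg Subtype.val (h.inj r' he)
    rw [hw, hw'] at h1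
    have h2 := mul_left_cancel₀ ht'.ne' h1
    exact Subtype.ext (by linarith)

theorem arc_thru (h : Wedge γ v) {r r' : ι} (hr : r ≠ r') {s t : I} (hs : 0 < s) (ht : 0 < t) :
    IsArc (range (thru γ r r' s t)) (γ r s) (γ r' t) := by
  refine ⟨thru γ r r' s t, h.thru_cont r r' s t, h.thru_inj hr hs ht, ?_, ?_, rfl⟩
  · obtain ⟨w, hw, e⟩ := thru_left (γ := γ) (r := r) (r' := r') (s := s) (t := t) (u := 0)
      (by norm_num)
    rw [e]
    congr 1
    exact Subtype.ext (by rw [hw]; simp)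
  · obtain ⟨w, hw, e⟩ := thru_right (γ := γ) (r := r) (r' := r') (s := s) (t := t) (u := 1)
      (by norm_num)
    rw [e]
    congr 1
    exact Subtype.ext (by rw [hw]; norm_num)

theorem uniq_thru [T2Space S] [Finite ι] (h : Wedge γ v) {r r' : ι} (hr : r ≠ r') {s t : I}
    (hs : 0 < s) (ht : 0 < t) {B : Set S} (hsub : B ⊆ wed γ) (hB : IsArc B (γ r s) (γ r' t)) :
    B = range (thru γ r r' s t) := by
  symm
  refine (h.arc_thru hr hs ht).subset_eq hB ?_
  have hs' : (0 : ℝ) < s := by exact_mod_cast hs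
  have ht' : (0 : ℝ) < t := by exact_mod_cast ht
  have hBc := hB.isConnected.isPreconnected
  have hleft : ∀ w : I, 0 < w → w ≤ s → γ r w ∈ B := by
    intro w hw hws
    refine h.seg hBc hsub hB.left_mem hB.right_mem ?_ ?_
    · rw [h.co_other hr]; exact_mod_cast hw
    · rw [h.co_self]; exact_mod_cast hws
  have hright : ∀ w : I, 0 < w → w ≤ t → γ r' w ∈ B := by
    intro w hw hws
    refine h.seg hBc hsub hB.right_mem hB.left_mem ?_ ?_
    · rw [h.co_other hr.symm]; exact_mod_cast hw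
    · rw [h.co_self]; exact_mod_cast hws
  have hv : γ r 0 ∈ B := by
    have hcl : IsClosed (γ r ⁻¹' B) := hB.isCompact.isClosed.preimage (h.cont r)
    have h1 : closure (Ioc (0 : I) s) ⊆ γ r ⁻¹' B :=
      hcl.closure_subset_iff.2 fun w hw => hleft w hw.1 hw.2
    rw [closure_Ioc hs.ne] at h1
    exact h1 ⟨le_rfl, hs.le⟩
  have hv' : γ r' 0 ∈ B := by rw [h.zero, ← h.zero r]; exact hv
  rintro _ ⟨u, rfl⟩
  rcases le_or_gt (u : ℝ) (1 / 2) with hu | hu
  · obtain ⟨w, hw, e⟩ := thru_left (γ := γ) (r := r) (r' := r') (s := s) (t := t) hu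
    rw [e]
    rcases (unitInterval.nonneg' (t := w)).eq_or_lt with h0 | h0
    · rw [← h0]; exact hv
    · refine hleft w h0 ?_
      change (w : ℝ) ≤ s
      rw [hw]
      nlinarith [u.2.1]
  · obtain ⟨w, hw, e⟩ := thru_right (γ := γ) (r := r) (r' := r') (s := s) (t := t) hu
    rw [e]
    rcases (unitInterval.nonneg' (t := w)).eq_or_lt with h0 | h0
    · rw [← h0]; exact hv'
    · refine hright w h0 ?_
      change (w : ℝ) ≤ t
      rw [hw]
      nlinarith [u.2.2]

theorem existsUnique_arc [T2Space S] [Finite ι] (h : Wedge γ v) {x y : S} (hx : x ∈ wed γ)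
    (hy : y ∈ wed γ) (hxy : x ≠ y) : ∃! A, A ⊆ wed γ ∧ IsArc A x y := by
  -- two points of the same arc
  have same : ∀ (r : ι) (s t : I), γ r s ≠ γ r t →
      ∃! A, A ⊆ wed γ ∧ IsArc A (γ r s) (γ r t) := by
    intro r s t hne
    have hst : s ≠ t := fun e => hne (by rw [e])
    refine ⟨range (γ r ∘ lin s t), ⟨?_, h.arc_same r hst⟩, ?_⟩
    · rintro _ ⟨u, rfl⟩
      exact mem_wed.2 ⟨r, _, rfl⟩
    · rintro B ⟨hB1, hB2⟩
      rcases lt_or_gt_of_ne hst with hlt | hlt
      · exact h.uniq_same hlt hB1 hB2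
      · rw [h.uniq_same hlt hB1 hB2.symm]
        have e : lin s t = lin t s ∘ unitInterval.symm := by
          funext u
          apply Subtype.ext
          simp only [Function.comp, lin_coe, unitInterval.coe_symm_eq]
          ring
        rw [e, ← Function.comp_assoc, (unitInterval.symm_bijective.surjective).range_comp]
  obtain ⟨r, s, rfl⟩ := mem_wed.1 hx
  obtain ⟨r', t, rfl⟩ := mem_wed.1 hy
  by_cases hr : r = r'
  · subst hr
    exact same r s t hxy
  rcases (unitInterval.nonneg' (t := s)).eq_or_lt with hs | hs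
  · have e : γ r s = γ r' 0 := by rw [← hs, h.zero, h.zero]
    rw [e] at hxy ⊢
    exact same r' 0 t hxy
  rcases (unitInterval.nonneg' (t := t)).eq_or_lt with ht | ht
  · have e : γ r' t = γ r 0 := by rw [← ht, h.zero, h.zero]
    rw [e] at hxy ⊢
    exact same r s 0 hxy
  refine ⟨range (thru γ r r' s t), ⟨?_, h.arc_thru hr hs ht⟩, ?_⟩
  · rintro _ ⟨u, rfl⟩
    rcases le_or_gt (u : ℝ) (1 / 2) with hu | hu
    · obtain ⟨w, hw, e⟩ := thru_left (γ := γ) (r := r) (r' := r') (s := s) (t := t) hu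
      exact mem_wed.2 ⟨r, w, e.symm⟩
    · obtain ⟨w, hw, e⟩ := thru_right (γ := γ) (r := r) (r' := r') (s := s) (t := t) hu
      exact mem_wed.2 ⟨r', w, e.symm⟩
  · rintro B ⟨hB1, hB2⟩
    exact h.uniq_thru hr hs ht hB1 hB2

theorem isFiniteTree [T2Space S] [Finite ι] (h : Wedge γ v) : IsFiniteTree (wed γ) := by
  refine ⟨⟨range fun r => range (γ r), finite_range _, ?_, ?_⟩, ?_⟩
  · rintro _ ⟨r, rfl⟩
    exact ⟨γ r 0, γ r 1, γ r, h.cont r, h.inj r, rfl, rfl, rfl⟩
  · rw [sUnion_range]; rfl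
  · intro x hx y hy hxy
    exact h.existsUnique_arc hx hy hxy

end Wedge

end Pool.Agent.N224.Ivy
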